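import Pool.Agent.Q73.SM.D

/-!
# Even moments of stationary waves: conclusions (project SM)
-/

set_option autoImplicit false
open MeasureTheory Filter Topology
open scoped ContDiff ENNReal Nat

namespace Pool.Agent.Q73.SM

open Pool.Agent.Y139.SW

noncomputable section

lemma al_eq (n : ℕ) : al n = ((2 * n - 1)‼ : ℕ) := by
  induction n with
  | zero => simp [al]
  | succ n ih =>
    rw [al, ih]
    rcases Nat.eq_zero_or_pos n with hn | hn
    · subst hn; simp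
    · have e : 2 * (n + 1) - 1 = (2 * n - 1) + 2 := by omega
      rw [e, Nat.doubleFactorial_add_two]
      have e2 : 2 * n - 1 + 2 = 2 * n + 1 := by omega
      rw [e2]; push_cast; ring

lemma al_bd (p : ℕ) : (2 : ℝ) ^ p * p.factorial ≤ (p + 1) * al p := by
  induction p with
  | zero => simp [al]
  | succ p ih =>
    rw [Nat.factorial_succ, al]
    have a0 := al_pos p
    have p0 : (0 : ℝ) ≤ p := Nat.cast_nonneg p
    push_cast
    calc (2 : ℝ) ^ (p + 1) * ((p + 1) * p.factorial) = 2 * (p + 1) * (2 ^ p * p.factorial) := by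
          ring
      _ ≤ 2 * (p + 1) * ((p + 1) * al p) := by gcongr
      _ ≤ (p + 1 + 1) * ((2 * p + 1) * al p) := by nlinarith

variable {d : ℕ} {S : Type*} [MeasurableSpace S] {P : Measure S} {τ : E d → S → S}

lemma MM_int' [IsProbabilityMeasure P] (hτ : ∀ x, MeasurePreserving (τ x) P P)
    {G : S → E d → ℝ} (W : Wave P τ G) (p : ℕ)
    (hp : Integrable (fun s => G s 0 ^ (2 * p)) P) :
    Integrable (fun s => MM (G s) 0 ^ p) P := by
  rcases Nat.eq_zero_or_pos p with h | h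
  · subst h; simp
  · obtain ⟨m, rfl⟩ : ∃ m, p = m + 1 := ⟨p - 1, by omega⟩
    exact MM_int hτ W m hp

lemma energy' [IsProbabilityMeasure P] (hτ : ∀ x, MeasurePreserving (τ x) P P)
    {G : S → E d → ℝ} (W : Wave P τ G) :
    Integrable (fun s => G s 0 ^ 2 + g2 (G s) 0) P ∧
      ∫ s, (G s 0 ^ 2 + g2 (G s) 0) ∂P = 2 * ∫ s, G s 0 ^ 2 ∂P := by
  have W1 := fun i => W.der hτ i
  have ig : Integrable (fun s => g2 (G s) 0) P := integrable_finsetSum _ fun i _ => (W1 i).l2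
  refine ⟨W.l2.add ig, ?_⟩
  rw [integral_add W.l2 ig]
  have : ∫ s, g2 (G s) 0 ∂P = ∫ s, G s 0 ^ 2 ∂P := by
    rw [← W.energy hτ]
    exact integral_finsetSum _ fun i _ => (W1 i).l2
  rw [this]; ring

lemma p_nn (f : E d → ℝ) (y : E d) : 0 ≤ f y ^ 2 + g2 f y := by
  have := g2_nn f y; positivity

/-- Jensen -/
lemma jensen [IsProbabilityMeasure P] (hτ : ∀ x, MeasurePreserving (τ x) P P)
    {G : S → E d → ℝ} (W : Wave P τ G) (p : ℕ)
    (hP : Integrable (fun s => (G s 0 ^ 2 + g2 (G s) 0) ^ p) P) :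
    (2 * ∫ s, G s 0 ^ 2 ∂P) ^ p ≤ ∫ s, (G s 0 ^ 2 + g2 (G s) 0) ^ p ∂P := by
  obtain ⟨i1, e1⟩ := energy' hτ W
  rw [← e1]
  have := (convexOn_pow (𝕜 := ℝ) p).map_integral_le (μ := P)
    (f := fun s => G s 0 ^ 2 + g2 (G s) 0) (continuous_pow p).continuousOn isClosed_Ici
    (ae_of_all _ fun s => p_nn (G s) 0) i1 hP
  exact this

/-- the bounded case -/
theorem bdd [IsProbabilityMeasure P] (hτ : ∀ x, MeasurePreserving (τ x) P P)
    {G : S → E d → ℝ} (W : Wave P τ G) (M : ℝ) (hM : ∀ᵐ s ∂P, |G s 0| ≤ M) :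
    (∀ᵐ s ∂P, G s 0 ^ 2 + g2 (G s) 0 ≤ M ^ 2) ∧ 2 * ∫ s, G s 0 ^ 2 ∂P ≤ M ^ 2 := by
  have m0 : Measurable fun s => G s 0 := W.m0
  have mP : Measurable fun s => G s 0 ^ 2 + g2 (G s) 0 :=
    (m0.pow_const 2).add ((g2_sf W.sf).meas 0)
  have ip : ∀ p : ℕ, Integrable (fun s => G s 0 ^ (2 * p)) P := by
    intro p
    refine Integrable.mono' (integrable_const (M ^ (2 * p)))
      (m0.pow_const _).aestronglyMeasurable ?_
    filter_upwards [hM] with s hs
    rw [Real.norm_eq_abs, abs_pow]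
    exact pow_le_pow_left₀ (abs_nonneg _) hs _
  have bd : ∀ p : ℕ, ∫ s, (G s 0 ^ 2 + g2 (G s) 0) ^ p ∂P ≤ (p + 1) * (M ^ 2) ^ p := by
    intro p
    obtain ⟨i1, h1⟩ := pmom hτ W p (MM_int' hτ W p (ip p))
    have a0 := al_pos p
    have h2 : mo P G p 0 ≤ (M ^ 2) ^ p := by
      have : mo P G p 0 = ∫ s, G s 0 ^ (2 * p) ∂P := by simp [mo]
      rw [this]
      have h3 : ∫ s, G s 0 ^ (2 * p) ∂P ≤ ∫ _s, (M ^ 2) ^ p ∂P := by
        refine integral_mono_ae (ip p) (integrable_const _) ?_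
        filter_upwards [hM] with s hs
        rw [pow_mul]
        refine pow_le_pow_left₀ (sq_nonneg _) ?_ p
        rw [← sq_abs]
        exact pow_le_pow_left₀ (abs_nonneg _) hs 2
      simpa using h3
    have h3 := al_bd p
    have f0 : (0 : ℝ) ≤ 2 ^ p * p.factorial := by positivity
    have M0 : (0 : ℝ) ≤ (M ^ 2) ^ p := by positivity
    refine le_of_mul_le_mul_left ?_ a0
    calc al p * ∫ s, (G s 0 ^ 2 + g2 (G s) 0) ^ p ∂P ≤ 2 ^ p * p.factorial * mo P G p 0 := h1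
      _ ≤ 2 ^ p * p.factorial * (M ^ 2) ^ p := by gcongr
      _ ≤ (p + 1) * al p * (M ^ 2) ^ p := by gcongr
      _ = al p * ((p + 1) * (M ^ 2) ^ p) := by ring
  have key : ∀ δ : ℝ, 0 < δ → P {s | M ^ 2 + δ ≤ G s 0 ^ 2 + g2 (G s) 0} = 0 := by
    intro δ hδ
    have mA : MeasurableSet {s | M ^ 2 + δ ≤ G s 0 ^ 2 + g2 (G s) 0} :=
      measurableSet_le measurable_const mP
    have h0 : ∀ p : ℕ, (M ^ 2 + δ) ^ p * P.real {s | M ^ 2 + δ ≤ G s 0 ^ 2 + g2 (G s) 0} ≤
        (p + 1) * (M ^ 2) ^ p := by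
      intro p
      obtain ⟨i1, -⟩ := pmom hτ W p (MM_int' hτ W p (ip p))
      refine le_trans ?_ (bd p)
      have := mul_meas_ge_le_integral_of_nonneg (μ := P) (f := fun s => (G s 0 ^ 2 + g2 (G s) 0) ^ p)
        (ae_of_all _ fun s => pow_nonneg (p_nn _ _) p) i1 ((M ^ 2 + δ) ^ p)
      refine le_trans ?_ this
      have c0 : (0 : ℝ) ≤ (M ^ 2 + δ) ^ p := by positivity
      refine mul_le_mul_of_nonneg_left ?_ c0
      refine measureReal_mono (fun s hs => ?_) (measure_ne_top _ _)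
      have hs' : M ^ 2 + δ ≤ G s 0 ^ 2 + g2 (G s) 0 := hs
      have c1 : (0 : ℝ) ≤ M ^ 2 + δ := by positivity
      exact pow_le_pow_left₀ c1 hs' p
    set a := P.real {s | M ^ 2 + δ ≤ G s 0 ^ 2 + g2 (G s) 0} with ha
    have a0 : 0 ≤ a := measureReal_nonneg
    set q := M ^ 2 / (M ^ 2 + δ) with hq
    have c0 : 0 < M ^ 2 + δ := by positivity
    have q0 : 0 ≤ q := by positivity
    have q1 : q < 1 := by rw [hq, div_lt_one c0]; linarith
    have h1 : ∀ p : ℕ, a ≤ (p + 1) * q ^ p := by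
      intro p
      have := h0 p
      rw [hq, div_pow, mul_div_assoc', le_div_iff₀ (by positivity)]
      linarith
    have h2 : Tendsto (fun p : ℕ => ((p : ℝ) + 1) * q ^ p) atTop (𝓝 0) := by
      have t1 := tendsto_self_mul_const_pow_of_lt_one q0 q1
      have t2 := tendsto_pow_atTop_nhds_zero_of_lt_one q0 q1
      have := t1.add t2
      rw [add_zero] at this
      refine this.congr fun n => ?_
      ring
    have h3 : a ≤ 0 := ge_of_tendsto' h2 h1
    have h4 : a = 0 := le_antisymm h3 a0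
    rw [ha, measureReal_eq_zero_iff] at h4
    exact h4
  have ae : ∀ᵐ s ∂P, G s 0 ^ 2 + g2 (G s) 0 ≤ M ^ 2 := by
    have h1 : ∀ᵐ s ∂P, ∀ n : ℕ, ¬ (M ^ 2 + 1 / ((n : ℝ) + 1) ≤ G s 0 ^ 2 + g2 (G s) 0) := by
      rw [ae_all_iff]
      intro n
      rw [ae_iff]
      have := key (1 / ((n : ℝ) + 1)) (by positivity)
      simpa using this
    filter_upwards [h1] with s hs
    refine le_of_forall_pos_le_add fun ε hε => ?_
    obtain ⟨n, hn⟩ := exists_nat_one_div_lt hε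
    have := not_le.1 (hs n)
    linarith
  refine ⟨ae, ?_⟩
  obtain ⟨i1, e1⟩ := energy' hτ W
  rw [← e1]
  have h := integral_mono_ae i1 (integrable_const (M ^ 2)) ae
  simpa using h

section canonical

variable (d)

/-- the space of smooth solutions -/
abbrev Sp : Type := {f : E d → ℝ // ContDiff ℝ ∞ f ∧ ∀ y, Lap f y = -f y}

variable {d}

lemma D_tr (f : E d → ℝ) (x : E d) (i : Fin d) :
    D i (fun y => f (y + x)) = fun y => D i f (y + x) := by
  funext y
  show fderiv ℝ (fun y => f (y + x)) y _ = fderiv ℝ f (y + x) _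
  rw [fderiv_comp_add_right]

lemma Lap_tr (f : E d → ℝ) (x y : E d) : Lap (fun y => f (y + x)) y = Lap f (y + x) := by
  unfold Lap
  refine Finset.sum_congr rfl fun i _ => ?_
  rw [D_tr, D_tr]

/-- the shift -/
def sh (x : E d) (f : Sp d) : Sp d :=
  ⟨fun y => f.1 (y + x), f.2.1.comp (contDiff_id.add contDiff_const), fun y => by
    rw [Lap_tr]; exact f.2.2 _⟩

lemma sh_me (x : E d) : Measurable (sh x) := by
  refine Measurable.subtype_mk (measurable_pi_iff.2 fun y => ?_)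
  exact (measurable_pi_apply (y + x)).comp measurable_subtype_coe

/-- transfer to the canonical space -/
theorem canon [IsProbabilityMeasure P] {F : S → E d → ℝ} (mF : ∀ y, Measurable fun s => F s y)
    (sF : ∀ s, ContDiff ℝ ∞ (F s)) (eF : ∀ s y, Lap (F s) y + F s y = 0)
    (st : ∀ x : E d, P.map (fun s y => F s (y + x)) = P.map (fun s y => F s y))
    (l2 : Integrable (fun s => F s 0 ^ 2) P) :
    ∃ Φ : S → Sp d, (∀ s, (Φ s).1 = F s) ∧ Measurable Φ ∧
      IsProbabilityMeasure (P.map Φ) ∧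
      (∀ x : E d, MeasurePreserving (sh x) (P.map Φ) (P.map Φ)) ∧
      Wave (P.map Φ) sh (fun f : Sp d => f.1) := by
  obtain ⟨Φ, hΦ⟩ : ∃ Φ : S → Sp d, Φ = fun s => ⟨F s, sF s, fun y => by
    have := eF s y; linarith⟩ := ⟨_, rfl⟩
  have v1 : ∀ s, (Φ s).1 = F s := fun s => by rw [hΦ]
  have mΦ : Measurable Φ := by
    rw [hΦ]
    exact Measurable.subtype_mk (measurable_pi_iff.2 mF)
  have hQ : IsProbabilityMeasure (P.map Φ) := Measure.isProbabilityMeasure_map mΦ.aemeasurable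
  have hτ : ∀ x : E d, MeasurePreserving (sh x) (P.map Φ) (P.map Φ) := by
    intro x
    refine ⟨sh_me x, ?_⟩
    rw [Measure.map_map (sh_me x) mΦ]
    ext A mA
    obtain ⟨B, mB, rfl⟩ := mA
    have e1 : ((sh x ∘ Φ) ⁻¹' (Subtype.val ⁻¹' B)) = (fun s y => F s (y + x)) ⁻¹' B := by
      ext s
      show (fun y => (Φ s).1 (y + x)) ∈ B ↔ (fun y => F s (y + x)) ∈ B
      rw [v1]
    have e2 : (Φ ⁻¹' (Subtype.val ⁻¹' B)) = (fun s y => F s y) ⁻¹' B := by
      ext s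
      show (Φ s).1 ∈ B ↔ (fun y => F s y) ∈ B
      rw [v1]
    have mV : MeasurableSet (Subtype.val ⁻¹' B : Set (Sp d)) := ⟨B, mB, rfl⟩
    rw [Measure.map_apply ((sh_me x).comp mΦ) mV, Measure.map_apply mΦ mV, e1, e2,
      ← Measure.map_apply (measurable_pi_iff.2 fun y => mF (y + x)) mB,
      ← Measure.map_apply (measurable_pi_iff.2 fun y => mF y) mB, st x]
  refine ⟨Φ, v1, mΦ, hQ, hτ, ⟨⟨fun y => (measurable_pi_apply y).comp measurable_subtype_coe,
    fun f => f.2.1, fun x f y => rfl⟩, fun f y => f.2.2 y, ?_⟩⟩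
  have m0 : Measurable fun f : Sp d => f.1 0 :=
    (measurable_pi_apply 0).comp measurable_subtype_coe
  refine (integrable_map_measure (m0.pow_const 2).aestronglyMeasurable mΦ.aemeasurable).2 ?_
  refine l2.congr (ae_of_all _ fun s => ?_)
  show F s 0 ^ 2 = (Φ s).1 0 ^ 2
  rw [v1]

end canonical

/-- the final statement -/
theorem fin [IsProbabilityMeasure P] {F : S → E d → ℝ} (mF : ∀ y, Measurable fun s => F s y)
    (sF : ∀ s, ContDiff ℝ ∞ (F s)) (eF : ∀ s y, Lap (F s) y + F s y = 0)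
    (st : ∀ x : E d, P.map (fun s y => F s (y + x)) = P.map (fun s y => F s y))
    (l2 : Integrable (fun s => F s 0 ^ 2) P) :
    (∀ p : ℕ, Integrable (fun s => F s 0 ^ (2 * p)) P →
      (∀ a b : ℕ, a + b = p → Integrable (fun s => F s 0 ^ (2 * a) * g2 (F s) 0 ^ b) P ∧
        ((2 * p - 1)‼ : ℕ) * ∫ s, F s 0 ^ (2 * a) * g2 (F s) 0 ^ b ∂P ≤
          ((2 * a - 1)‼ : ℕ) * ((2 * b - 1)‼ : ℕ) * ∫ s, F s 0 ^ (2 * p) ∂P) ∧
      Integrable (fun s => (F s 0 ^ 2 + g2 (F s) 0) ^ p) P ∧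
      ((2 * p - 1)‼ : ℕ) * ∫ s, (F s 0 ^ 2 + g2 (F s) 0) ^ p ∂P ≤
        2 ^ p * p.factorial * ∫ s, F s 0 ^ (2 * p) ∂P ∧
      ((2 * p - 1)‼ : ℕ) * (∫ s, F s 0 ^ 2 ∂P) ^ p ≤
        p.factorial * ∫ s, F s 0 ^ (2 * p) ∂P) ∧
    (∀ M : ℝ, (∀ᵐ s ∂P, |F s 0| ≤ M) → (∀ᵐ s ∂P, F s 0 ^ 2 + g2 (F s) 0 ≤ M ^ 2) ∧
      2 * ∫ s, F s 0 ^ 2 ∂P ≤ M ^ 2) := by
  obtain ⟨Φ, v1, mΦ, hQ, hτ, W⟩ := canon mF sF eF st l2
  have m0 : Measurable fun f : Sp d => f.1 0 := W.m0
  have mg : Measurable fun f : Sp d => g2 f.1 0 := (g2_sf W.sf).meas 0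
  have i2 : ∫ f, (f.1 0) ^ 2 ∂(P.map Φ) = ∫ s, F s 0 ^ 2 ∂P := by
    rw [integral_map mΦ.aemeasurable (m0.pow_const 2).aestronglyMeasurable]
    simp only [v1]
  constructor
  · intro p hp
    have ip : Integrable (fun f : Sp d => f.1 0 ^ (2 * p)) (P.map Φ) := by
      refine (integrable_map_measure (m0.pow_const _).aestronglyMeasurable mΦ.aemeasurable).2 ?_
      refine hp.congr (ae_of_all _ fun s => ?_)
      show F s 0 ^ (2 * p) = (Φ s).1 0 ^ (2 * p)
      rw [v1]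
    have hM := MM_int' hτ W p ip
    have e0 : mo (P.map Φ) (fun f : Sp d => f.1) p 0 = ∫ s, F s 0 ^ (2 * p) ∂P := by
      unfold mo
      simp only [pow_zero, mul_one]
      rw [integral_map mΦ.aemeasurable (m0.pow_const _).aestronglyMeasurable]
      simp only [v1]
    obtain ⟨j1, j2⟩ := pmom hτ W p hM
    have mP : Measurable fun f : Sp d => (f.1 0 ^ 2 + g2 f.1 0) ^ p :=
      ((m0.pow_const 2).add mg).pow_const _
    have e3 : ∫ f, (f.1 0 ^ 2 + g2 f.1 0) ^ p ∂(P.map Φ) =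
        ∫ s, (F s 0 ^ 2 + g2 (F s) 0) ^ p ∂P := by
      rw [integral_map mΦ.aemeasurable mP.aestronglyMeasurable]
      simp only [v1]
    have j3 := jensen hτ W p j1
    rw [e3, e0] at j2
    rw [e3, i2] at j3
    refine ⟨fun a b hab => ?_, ?_, ?_, ?_⟩
    · have mA : Measurable fun f : Sp d => f.1 0 ^ (2 * a) * g2 f.1 0 ^ b :=
        (m0.pow_const _).mul (mg.pow_const _)
      have k1 := mo_int W a b p hab hM
      have k2 := mo_main hτ W p hM b a hab
      have e1 : mo (P.map Φ) (fun f : Sp d => f.1) a b =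
          ∫ s, F s 0 ^ (2 * a) * g2 (F s) 0 ^ b ∂P := by
        unfold mo
        rw [integral_map mΦ.aemeasurable mA.aestronglyMeasurable]
        simp only [v1]
      rw [e1, e0] at k2
      refine ⟨?_, ?_⟩
      · have := (integrable_map_measure mA.aestronglyMeasurable mΦ.aemeasurable).1 k1
        refine this.congr (ae_of_all _ fun s => ?_)
        show (Φ s).1 0 ^ (2 * a) * g2 (Φ s).1 0 ^ b = _
        rw [v1]
      · rw [← al_eq, ← al_eq, ← al_eq]
        linarith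
    · have := (integrable_map_measure mP.aestronglyMeasurable mΦ.aemeasurable).1 j1
      refine this.congr (ae_of_all _ fun s => ?_)
      show ((Φ s).1 0 ^ 2 + g2 (Φ s).1 0) ^ p = _
      rw [v1]
    · rw [← al_eq]; exact j2
    · rw [← al_eq]
      rw [mul_pow] at j3
      have a0 := al_pos p
      have c0 : (0 : ℝ) < 2 ^ p := by positivity
      refine le_of_mul_le_mul_left ?_ c0
      calc (2 : ℝ) ^ p * (al p * (∫ s, F s 0 ^ 2 ∂P) ^ p) =
            al p * (2 ^ p * (∫ s, F s 0 ^ 2 ∂P) ^ p) := by ring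
        _ ≤ al p * ∫ s, (F s 0 ^ 2 + g2 (F s) 0) ^ p ∂P := by gcongr
        _ ≤ 2 ^ p * p.factorial * ∫ s, F s 0 ^ (2 * p) ∂P := j2
        _ = 2 ^ p * (p.factorial * ∫ s, F s 0 ^ (2 * p) ∂P) := by ring
  · intro M hM
    have hM' : ∀ᵐ f ∂(P.map Φ), |f.1 0| ≤ M := by
      rw [ae_map_iff mΦ.aemeasurable (measurableSet_le m0.abs measurable_const)]
      filter_upwards [hM] with s hs
      rw [v1]; exact hs
    obtain ⟨k1, k2⟩ := bdd hτ W M hM'
    refine ⟨?_, ?_⟩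
    · have mS : MeasurableSet {f : Sp d | f.1 0 ^ 2 + g2 f.1 0 ≤ M ^ 2} :=
        measurableSet_le ((m0.pow_const 2).add mg) measurable_const
      have k3 := (ae_map_iff mΦ.aemeasurable mS).1 k1
      filter_upwards [k3] with s hs
      rw [v1] at hs; exact hs
    · rw [i2] at k2; exact k2

end

end Pool.Agent.Q73.SM
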