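import Pool.Agent.Q73.SM.E

/-!
# Even moments of stationary waves: the plane wave with random phase (project SM)
-/

set_option autoImplicit false
open MeasureTheory Filter Topology
open scoped ContDiff ENNReal Nat

namespace Pool.Agent.Q73.SM

open Pool.Agent.Y139.SW

noncomputable section

instance : Fact (0 < 2 * Real.pi) := ⟨Real.two_pi_pos⟩

/-- the sine on the circle -/
def asin' : AddCircle (2 * Real.pi) → ℝ := Real.sin_periodic.lift

lemma asin_coe (x : ℝ) : asin' (x : AddCircle (2 * Real.pi)) = Real.sin x := rfl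

lemma asin_meas : Measurable asin' := by
  have : Continuous asin' := by
    unfold asin'
    exact continuous_coinduced_dom.mpr Real.continuous_sin
  exact this.measurable

/-- the plane wave -/
def pwv (d : ℕ) (s : AddCircle (2 * Real.pi)) (y : E (d + 1)) : ℝ := asin' (s + (y 0 : ℝ))

lemma pwv_coe (d : ℕ) (x : ℝ) (y : E (d + 1)) :
    pwv d (x : AddCircle (2 * Real.pi)) y = Real.sin (x + y 0) := by
  unfold pwv
  rw [← AddCircle.coe_add, asin_coe]

lemma pr_d (d : ℕ) (x : ℝ) (y v : E (d + 1)) (g g' : ℝ → ℝ)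
    (hg : ∀ t, HasDerivAt g (g' t) t) :
    fderiv ℝ (fun z : E (d + 1) => g (x + z 0)) y v = g' (x + y 0) * v 0 := by
  have h1 : HasFDerivAt (fun z : E (d + 1) => x + z 0)
      (EuclideanSpace.proj (𝕜 := ℝ) (0 : Fin (d + 1)) : E (d + 1) →L[ℝ] ℝ) y :=
    (EuclideanSpace.proj (𝕜 := ℝ) (0 : Fin (d + 1)) : E (d + 1) →L[ℝ] ℝ).hasFDerivAt.const_add x
  have h2 := (hg (x + y 0)).comp_hasFDerivAt y h1
  have h3 : fderiv ℝ (fun z : E (d + 1) => g (x + z 0)) y =
      g' (x + y 0) • (EuclideanSpace.proj (𝕜 := ℝ) (0 : Fin (d + 1)) : E (d + 1) →L[ℝ] ℝ) :=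
    h2.fderiv
  rw [h3]
  simp

lemma pwv_D (d : ℕ) (x : ℝ) (i : Fin (d + 1)) (y : E (d + 1)) :
    D i (pwv d (x : AddCircle (2 * Real.pi))) y = if i = 0 then Real.cos (x + y 0) else 0 := by
  have e : pwv d (x : AddCircle (2 * Real.pi)) = fun z => Real.sin (x + z 0) :=
    funext fun z => pwv_coe d x z
  unfold D
  rw [e, pr_d d x y _ Real.sin Real.cos Real.hasDerivAt_sin]
  by_cases h : i = 0
  · subst h; simp
  · simp [h, Ne.symm h]

lemma pwv_eq (d : ℕ) (s : AddCircle (2 * Real.pi)) (y : E (d + 1)) :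
    Lap (pwv d s) y + pwv d s y = 0 := by
  obtain ⟨x, rfl⟩ := QuotientAddGroup.mk_surjective s
  unfold Lap
  have e : ∀ i : Fin (d + 1), D i (D i (pwv d (x : AddCircle (2 * Real.pi)))) y =
      if i = 0 then -Real.sin (x + y 0) else 0 := by
    intro i
    by_cases h : i = 0
    · subst h
      have e1 : D (0 : Fin (d + 1)) (pwv d (x : AddCircle (2 * Real.pi))) =
          fun z => Real.cos (x + z 0) := funext fun z => by rw [pwv_D]; simp
      rw [e1]
      unfold D
      rw [pr_d d x y _ Real.cos (fun t => -Real.sin t) Real.hasDerivAt_cos]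
      simp
    · have e1 : D i (pwv d (x : AddCircle (2 * Real.pi))) =
          fun z => 0 := funext fun z => by rw [pwv_D]; simp [h]
      rw [e1]
      unfold D
      simp [h]
  simp only [e]
  rw [pwv_coe]
  simp

lemma pwv_sm (d : ℕ) (s : AddCircle (2 * Real.pi)) : ContDiff ℝ ∞ (pwv d s) := by
  obtain ⟨x, rfl⟩ := QuotientAddGroup.mk_surjective s
  have e : pwv d (x : AddCircle (2 * Real.pi)) = fun z => Real.sin (x + z 0) :=
    funext fun z => pwv_coe d x z
  rw [e]
  refine Real.contDiff_sin.comp (contDiff_const.add ?_)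
  exact (EuclideanSpace.proj (𝕜 := ℝ) (0 : Fin (d + 1)) : E (d + 1) →L[ℝ] ℝ).contDiff

lemma pwv_meas (d : ℕ) (y : E (d + 1)) : Measurable fun s => pwv d s y :=
  asin_meas.comp (measurable_add_const _)

lemma pwv_st (d : ℕ) (x : E (d + 1)) :
    (AddCircle.haarAddCircle (T := 2 * Real.pi)).map (fun s y => pwv d s (y + x)) =
      (AddCircle.haarAddCircle (T := 2 * Real.pi)).map (fun s y => pwv d s y) := by
  have e : (fun (s : AddCircle (2 * Real.pi)) (y : E (d + 1)) => pwv d s (y + x)) =
      (fun s y => pwv d s y) ∘ fun s => s + ((x 0 : ℝ) : AddCircle (2 * Real.pi)) := by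
    funext s y
    show asin' (s + ((y + x) 0 : ℝ)) = asin' (s + ((x 0 : ℝ) : AddCircle (2 * Real.pi)) + (y 0 : ℝ))
    congr 1
    rw [PiLp.add_apply, AddCircle.coe_add]
    abel
  rw [e, ← Measure.map_map (measurable_pi_iff.2 fun y => pwv_meas d y) (measurable_add_const _),
    map_add_right_eq_self]

lemma al_prod (p : ℕ) : ∏ i ∈ Finset.range p, (2 * (i : ℝ) + 1) / (2 * i + 2) =
    al p / (2 ^ p * p.factorial) := by
  induction p with
  | zero => simp [al]
  | succ p ih =>
    rw [Finset.prod_range_succ, ih, al, Nat.factorial_succ, pow_succ]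
    push_cast
    have : (p.factorial : ℝ) ≠ 0 := by positivity
    field_simp

lemma pwv_mom (d p : ℕ) : ∫ s, pwv d s 0 ^ (2 * p) ∂(AddCircle.haarAddCircle (T := 2 * Real.pi)) =
    al p / (2 ^ p * p.factorial) := by
  have h1 := AddCircle.intervalIntegral_preimage (2 * Real.pi) 0
    (fun s => pwv d s 0 ^ (2 * p))
  have h2 : ∫ a in (0 : ℝ)..(0 + 2 * Real.pi), pwv d (a : AddCircle (2 * Real.pi)) 0 ^ (2 * p) =
      2 * (Real.pi * (al p / (2 ^ p * p.factorial))) := by
    rw [← al_prod, ← integral_sin_pow_even, zero_add]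
    have e : ∀ a : ℝ, pwv d (a : AddCircle (2 * Real.pi)) 0 ^ (2 * p) = Real.sin a ^ (2 * p) := by
      intro a; rw [pwv_coe]; simp
    simp only [e]
    have c : ∀ a b : ℝ, IntervalIntegrable (fun a => Real.sin a ^ (2 * p)) volume a b :=
      fun a b => (Real.continuous_sin.pow _).intervalIntegrable a b
    rw [← intervalIntegral.integral_add_adjacent_intervals (c 0 Real.pi) (c Real.pi (2 * Real.pi)),
      two_mul (∫ x in (0 : ℝ)..Real.pi, Real.sin x ^ (2 * p))]
    congr 1
    have h3 := intervalIntegral.integral_comp_add_right (a := 0) (b := Real.pi)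
      (fun a => Real.sin a ^ (2 * p)) Real.pi
    rw [zero_add, ← two_mul] at h3
    rw [← h3]
    refine intervalIntegral.integral_congr fun a _ => ?_
    show Real.sin (a + Real.pi) ^ (2 * p) = Real.sin a ^ (2 * p)
    rw [Real.sin_add_pi, pow_mul, neg_sq, ← pow_mul]
  rw [h2] at h1
  rw [AddCircle.volume_eq_smul_haarAddCircle, integral_smul_measure,
    ENNReal.toReal_ofReal (by positivity), smul_eq_mul] at h1
  have := Real.pi_pos
  have h4 : 2 * Real.pi * (∫ s, pwv d s 0 ^ (2 * p) ∂(AddCircle.haarAddCircle (T := 2 * Real.pi))) =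
      2 * Real.pi * (al p / (2 ^ p * p.factorial)) := by linarith
  exact mul_left_cancel₀ (by positivity) h4

lemma pwv_int (d p : ℕ) : Integrable (fun s => pwv d s 0 ^ p)
    (AddCircle.haarAddCircle (T := 2 * Real.pi)) := by
  refine Integrable.mono' (integrable_const 1) ((pwv_meas d 0).pow_const _).aestronglyMeasurable
    (ae_of_all _ fun s => ?_)
  obtain ⟨x, rfl⟩ := QuotientAddGroup.mk_surjective s
  rw [pwv_coe, Real.norm_eq_abs, abs_pow]
  exact pow_le_one₀ (abs_nonneg _) (Real.abs_sin_le_one _)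

end

end Pool.Agent.Q73.SM
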