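import Pool.Agent.Y139.SW.B

/-!
# Even moments of stationary waves: the vector fields (project SM)

`g2 f = |∇f|²`, `w i f = (D²f ∇f)_i`, `Q = ∇f · D²f ∇f`, `R = |D²f ∇f|²`, `HS = |D²f|²`.
-/

set_option autoImplicit false
open MeasureTheory Filter Topology
open scoped ContDiff ENNReal

namespace Pool.Agent.Q73.SM

open Pool.Agent.Y139.SW

noncomputable section

variable {d : ℕ}

/-- `|∇f|²` -/
def g2 (f : E d → ℝ) (y : E d) : ℝ := ∑ j, D j f y ^ 2

/-- `(D²f ∇f)_i` -/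
def w (i : Fin d) (f : E d → ℝ) (y : E d) : ℝ := ∑ j, D j f y * D i (D j f) y

def Q (f : E d → ℝ) (y : E d) : ℝ := ∑ i, D i f y * w i f y

def R (f : E d → ℝ) (y : E d) : ℝ := ∑ i, w i f y ^ 2

def HS (f : E d → ℝ) (y : E d) : ℝ := ∑ i, ∑ j, D i (D j f) y ^ 2

/-- the first vector field -/
def X (a : ℕ) (k : ℝ → ℝ) (i : Fin d) (f : E d → ℝ) (y : E d) : ℝ :=
  f y ^ (2 * a + 1) * (k (g2 f y) * D i f y)

/-- the second vector field -/
def Y (a : ℕ) (k : ℝ → ℝ) (i : Fin d) (f : E d → ℝ) (y : E d) : ℝ :=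
  f y ^ (2 * a) * (k (g2 f y) * (w i f y + f y * D i f y))

lemma D_pow {f : E d → ℝ} (hf : ContDiff ℝ ∞ f) (n : ℕ) (i : Fin d) (y : E d) :
    D i (fun w => f w ^ n) y = n * f y ^ (n - 1) * D i f y := by
  have h1 := D_comp (k := fun x : ℝ => x ^ n) (contDiff_id.pow n) hf i y
  rw [h1]; simp

lemma D_add {f g : E d → ℝ} (hf : ContDiff ℝ ∞ f) (hg : ContDiff ℝ ∞ g) (i : Fin d) (y : E d) :
    D i (fun w => f w + g w) y = D i f y + D i g y := by
  unfold D
  rw [fderiv_fun_add (sdiff hf y) (sdiff hg y)]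
  simp

lemma g2_sm {f : E d → ℝ} (h : ContDiff ℝ ∞ f) : ContDiff ℝ ∞ (g2 f) :=
  ContDiff.sum fun j _ => (D_sm h j).pow 2

lemma w_sm {f : E d → ℝ} (h : ContDiff ℝ ∞ f) (i : Fin d) : ContDiff ℝ ∞ (w i f) :=
  ContDiff.sum fun j _ => (D_sm h j).mul (D_sm (D_sm h j) i)

lemma D_g2 {f : E d → ℝ} (h : ContDiff ℝ ∞ f) (i : Fin d) (y : E d) :
    D i (g2 f) y = 2 * w i f y := by
  have e : D i (g2 f) y = ∑ j, D i (fun y => D j f y ^ 2) y :=
    D_sum Finset.univ (fun j => (D_sm h j).pow 2) i y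
  rw [e, w, Finset.mul_sum]
  refine Finset.sum_congr rfl fun j _ => ?_
  rw [D_pow (D_sm h j)]
  simp; ring

lemma D_w {f : E d → ℝ} (h : ContDiff ℝ ∞ f) (i : Fin d) (y : E d) :
    D i (w i f) y = ∑ j, (D i (D j f) y ^ 2 + D j f y * D i (D i (D j f)) y) := by
  have e : D i (w i f) y = ∑ j, D i (fun y => D j f y * D i (D j f) y) y :=
    D_sum Finset.univ (fun j => (D_sm h j).mul (D_sm (D_sm h j) i)) i y
  rw [e]
  refine Finset.sum_congr rfl fun j _ => ?_
  rw [D_mul (D_sm h j) (D_sm (D_sm h j) i)]; ring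

lemma D_X {f : E d → ℝ} (h : ContDiff ℝ ∞ f) {k : ℝ → ℝ} (hk : ContDiff ℝ ∞ k) (a : ℕ) (i : Fin d)
    (y : E d) : D i (X a k i f) y =
      (2 * a + 1) * f y ^ (2 * a) * D i f y * (k (g2 f y) * D i f y) +
      f y ^ (2 * a + 1) * (deriv k (g2 f y) * (2 * w i f y) * D i f y +
        k (g2 f y) * D i (D i f) y) := by
  have s1 : ContDiff ℝ ∞ (fun y => k (g2 f y)) := hk.comp (g2_sm h)
  have e1 : D i (X a k i f) y = D i (fun w => f w ^ (2 * a + 1)) y * (k (g2 f y) * D i f y) +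
      f y ^ (2 * a + 1) * D i (fun w => k (g2 f w) * D i f w) y :=
    D_mul (h.pow _) (s1.mul (D_sm h i)) i y
  have e2 : D i (fun w => k (g2 f w) * D i f w) y = D i (fun w => k (g2 f w)) y * D i f y +
      k (g2 f y) * D i (D i f) y := D_mul s1 (D_sm h i) i y
  rw [e1, e2, D_pow h, D_comp hk (g2_sm h), D_g2 h]
  simp only [Nat.add_sub_cancel]
  push_cast
  ring

lemma D_Y {f : E d → ℝ} (h : ContDiff ℝ ∞ f) {k : ℝ → ℝ} (hk : ContDiff ℝ ∞ k) (a : ℕ) (i : Fin d)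
    (y : E d) : D i (Y a k i f) y =
      (2 * a) * f y ^ (2 * a - 1) * D i f y * (k (g2 f y) * (w i f y + f y * D i f y)) +
      f y ^ (2 * a) * (deriv k (g2 f y) * (2 * w i f y) * (w i f y + f y * D i f y) +
        k (g2 f y) * (D i (w i f) y + (D i f y ^ 2 + f y * D i (D i f) y))) := by
  have s1 : ContDiff ℝ ∞ (fun y => k (g2 f y)) := hk.comp (g2_sm h)
  have s2 : ContDiff ℝ ∞ (fun y => f y * D i f y) := h.mul (D_sm h i)
  have s3 : ContDiff ℝ ∞ (fun y => w i f y + f y * D i f y) := (w_sm h i).add s2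
  have e1 : D i (Y a k i f) y =
      D i (fun w => f w ^ (2 * a)) y * (k (g2 f y) * (w i f y + f y * D i f y)) +
      f y ^ (2 * a) * D i (fun z => k (g2 f z) * (w i f z + f z * D i f z)) y :=
    D_mul (h.pow _) (s1.mul s3) i y
  have e2 : D i (fun z => k (g2 f z) * (w i f z + f z * D i f z)) y =
      D i (fun w => k (g2 f w)) y * (w i f y + f y * D i f y) +
      k (g2 f y) * D i (fun z => w i f z + f z * D i f z) y := D_mul s1 s3 i y
  have e3 : D i (fun z => w i f z + f z * D i f z) y = D i (w i f) y +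
      D i (fun z => f z * D i f z) y := D_add (w_sm h i) s2 i y
  have e4 : D i (fun z => f z * D i f z) y = D i f y * D i f y + f y * D i (D i f) y :=
    D_mul h (D_sm h i) i y
  rw [e1, e2, e3, e4, D_pow h, D_comp hk (g2_sm h), D_g2 h]
  push_cast
  ring

/-- the divergence of `X` -/
lemma div_X {f : E d → ℝ} (h : ContDiff ℝ ∞ f) (hf : ∀ y, Lap f y = -f y) {k : ℝ → ℝ}
    (hk : ContDiff ℝ ∞ k) (a : ℕ) (y : E d) : ∑ i, D i (X a k i f) y =
      f y ^ (2 * a) * ((2 * a + 1) * k (g2 f y) * g2 f y + 2 * f y * deriv k (g2 f y) * Q f y -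
        k (g2 f y) * f y ^ 2) := by
  have e1 : ∑ i, D i (D i f) y = -f y := hf y
  have e2 : ∀ i, D i (X a k i f) y = (2 * a + 1) * f y ^ (2 * a) * k (g2 f y) * D i f y ^ 2 +
      2 * f y ^ (2 * a + 1) * deriv k (g2 f y) * (D i f y * w i f y) +
      f y ^ (2 * a + 1) * k (g2 f y) * D i (D i f) y := by
    intro i; rw [D_X h hk]; ring
  simp only [e2, Finset.sum_add_distrib, ← Finset.mul_sum, e1]
  unfold Q g2
  ring

/-- the divergence of `Y` -/
lemma div_Y {f : E d → ℝ} (h : ContDiff ℝ ∞ f) (hf : ∀ y, Lap f y = -f y) {k : ℝ → ℝ}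
    (hk : ContDiff ℝ ∞ k) (a : ℕ) (y : E d) : ∑ i, D i (Y a k i f) y =
      (2 * a) * f y ^ (2 * a - 1) * k (g2 f y) * (Q f y + f y * g2 f y) +
      f y ^ (2 * a) * (2 * deriv k (g2 f y) * (R f y + f y * Q f y) +
        k (g2 f y) * (HS f y - f y ^ 2)) := by
  have e1 : ∑ i, D i (D i f) y = -f y := hf y
  have e0 : ∑ i, D i (w i f) y = HS f y - g2 f y := by
    simp only [D_w h, Finset.sum_add_distrib]
    rw [HS, sub_eq_add_neg]
    congr 1
    rw [Finset.sum_comm, g2, ← Finset.sum_neg_distrib]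
    refine Finset.sum_congr rfl fun j _ => ?_
    rw [← Finset.mul_sum]
    have : ∑ i, D i (D i (D j f)) y = -D j f y := by
      have h1 := Lap_D h j y
      have h2 : Lap f = fun y => -f y := funext hf
      rw [h2] at h1
      have h3 : D j (fun y => -f y) y = -D j f y := by
        unfold D; rw [fderiv_fun_neg]; rfl
      rw [h3] at h1
      exact h1
    rw [this]; ring
  have e2 : ∀ i, D i (Y a k i f) y =
      (2 * a) * f y ^ (2 * a - 1) * k (g2 f y) * (D i f y * w i f y) +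
      (2 * a) * f y ^ (2 * a - 1) * k (g2 f y) * f y * D i f y ^ 2 +
      2 * f y ^ (2 * a) * deriv k (g2 f y) * w i f y ^ 2 +
      2 * f y ^ (2 * a) * deriv k (g2 f y) * f y * (D i f y * w i f y) +
      f y ^ (2 * a) * k (g2 f y) * D i (w i f) y +
      f y ^ (2 * a) * k (g2 f y) * D i f y ^ 2 +
      f y ^ (2 * a) * k (g2 f y) * f y * D i (D i f) y := by
    intro i; rw [D_Y h hk]; ring
  simp only [e2, Finset.sum_add_distrib, ← Finset.mul_sum, e1, e0]
  have q : ∑ i, D i f y * w i f y = Q f y := rfl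
  have g : ∑ i, D i f y ^ 2 = g2 f y := rfl
  have r : ∑ i, w i f y ^ 2 = R f y := rfl
  rw [q, g, r]
  ring

end

end Pool.Agent.Q73.SM
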