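import Pool.Agent.Q73.SM.A

/-!
# Even moments of stationary waves: the two identities (project SM)
-/

set_option autoImplicit false
open MeasureTheory Filter Topology
open scoped ContDiff ENNReal

namespace Pool.Agent.Q73.SM

open Pool.Agent.Y139.SW

noncomputable section

variable {d : ℕ}

/-- squares of the third derivatives that occur -/
def TT (f : E d → ℝ) (y : E d) : ℝ := ∑ i, ∑ j, D i (D i (D j f)) y ^ 2

/-- the control function -/
def MM (f : E d → ℝ) (y : E d) : ℝ := 1 + f y ^ 2 + g2 f y + HS f y + TT f y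

/-- bounds for the weight `k`: `|k x|, |x k' x| ≤ C x ^ b` -/
structure KB (k : ℝ → ℝ) (b : ℕ) (C : ℝ) : Prop where
  sm : ContDiff ℝ ∞ k
  C0 : 0 ≤ C
  b0 : ∀ x, 0 ≤ x → |k x| ≤ C * x ^ b
  b1 : ∀ x, 0 ≤ x → |x * deriv k x| ≤ C * x ^ b

lemma g2_nn (f : E d → ℝ) (y : E d) : 0 ≤ g2 f y := Finset.sum_nonneg fun _ _ => sq_nonneg _
lemma HS_nn (f : E d → ℝ) (y : E d) : 0 ≤ HS f y :=
  Finset.sum_nonneg fun _ _ => Finset.sum_nonneg fun _ _ => sq_nonneg _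
lemma TT_nn (f : E d → ℝ) (y : E d) : 0 ≤ TT f y :=
  Finset.sum_nonneg fun _ _ => Finset.sum_nonneg fun _ _ => sq_nonneg _
lemma R_nn (f : E d → ℝ) (y : E d) : 0 ≤ R f y := Finset.sum_nonneg fun _ _ => sq_nonneg _

lemma MM_one (f : E d → ℝ) (y : E d) : 1 ≤ MM f y := by
  unfold MM
  have := g2_nn f y; have := HS_nn f y; have := TT_nn f y; have := sq_nonneg (f y); linarith

lemma v_le (f : E d → ℝ) (y : E d) (i : Fin d) : D i f y ^ 2 ≤ g2 f y :=
  Finset.single_le_sum (f := fun j => D j f y ^ 2) (fun j _ => sq_nonneg _) (Finset.mem_univ i)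

lemma row_le (f : E d → ℝ) (y : E d) (i : Fin d) : ∑ j, D i (D j f) y ^ 2 ≤ HS f y :=
  Finset.single_le_sum (f := fun i => ∑ j, D i (D j f) y ^ 2)
    (fun j _ => Finset.sum_nonneg fun _ _ => sq_nonneg _) (Finset.mem_univ i)

lemma h_le (f : E d → ℝ) (y : E d) (i j : Fin d) : D i (D j f) y ^ 2 ≤ HS f y :=
  (Finset.single_le_sum (f := fun j => D i (D j f) y ^ 2) (fun j _ => sq_nonneg _)
    (Finset.mem_univ j)).trans (row_le f y i)

lemma w_le (f : E d → ℝ) (y : E d) (i : Fin d) : w i f y ^ 2 ≤ g2 f y * HS f y := by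
  unfold w
  refine (Finset.sum_mul_sq_le_sq_mul_sq _ _ _).trans ?_
  exact mul_le_mul_of_nonneg_left (row_le f y i) (g2_nn f y)

lemma R_le (f : E d → ℝ) (y : E d) : R f y ≤ g2 f y * HS f y := by
  unfold R HS
  rw [Finset.mul_sum]
  refine Finset.sum_le_sum fun i _ => ?_
  unfold w
  exact Finset.sum_mul_sq_le_sq_mul_sq _ _ _

lemma Q_le (f : E d → ℝ) (y : E d) : Q f y ^ 2 ≤ g2 f y * R f y := by
  unfold Q
  exact Finset.sum_mul_sq_le_sq_mul_sq _ _ _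

lemma t_le (f : E d → ℝ) (y : E d) (i : Fin d) :
    |∑ j, D j f y * D i (D i (D j f)) y| ≤ MM f y := by
  have h1 := Finset.sum_mul_sq_le_sq_mul_sq Finset.univ (fun j => D j f y)
    (fun j => D i (D i (D j f)) y)
  have h2 : ∑ j, D i (D i (D j f)) y ^ 2 ≤ TT f y :=
    Finset.single_le_sum (f := fun i => ∑ j, D i (D i (D j f)) y ^ 2)
      (fun j _ => Finset.sum_nonneg fun _ _ => sq_nonneg _) (Finset.mem_univ i)
  have h3 : (∑ j, D j f y * D i (D i (D j f)) y) ^ 2 ≤ g2 f y * TT f y :=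
    h1.trans (mul_le_mul_of_nonneg_left h2 (g2_nn f y))
  have g := g2_nn f y; have t := TT_nn f y; have hh := HS_nn f y
  apply abs_le_of_sq_le_sq _ (le_trans zero_le_one (MM_one f y))
  refine h3.trans ?_
  have m1 : g2 f y ≤ MM f y := by unfold MM; nlinarith [sq_nonneg (f y)]
  have m2 : TT f y ≤ MM f y := by unfold MM; nlinarith [sq_nonneg (f y)]
  nlinarith

section real

variable {f v H W κ κ' g h M C : ℝ} {a b : ℕ}

lemma ab_le {x y M : ℝ} (hx : x ^ 2 ≤ M) (hy : y ^ 2 ≤ M) (hM : 0 ≤ M) : |x * y| ≤ M := by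
  apply abs_le_of_sq_le_sq _ hM
  rw [mul_pow, sq M]
  exact mul_le_mul hx hy (sq_nonneg _) hM

lemma kvw (hv : v ^ 2 ≤ g) (hW : W ^ 2 ≤ g * h) (hh : 0 ≤ h) (hf : f ^ 2 ≤ M) (hhM : h ≤ M)
    (hg : 0 ≤ g) (h1 : |g * κ'| ≤ C * g ^ b) (hM : 0 ≤ M) : |f * (κ' * W * v)| ≤ C * g ^ b * M := by
  have e1 : |W * v| ≤ g * √h := by
    apply abs_le_of_sq_le_sq _ (by positivity)
    rw [mul_pow, mul_pow, Real.sq_sqrt hh]
    calc W ^ 2 * v ^ 2 ≤ (g * h) * g := mul_le_mul hW hv (sq_nonneg _) (by positivity)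
      _ = g ^ 2 * h := by ring
  have e2 : |f| * √h ≤ M := by
    have : (|f| * √h) ^ 2 ≤ M ^ 2 := by
      rw [mul_pow, sq_abs, Real.sq_sqrt hh, sq M]
      exact mul_le_mul hf hhM hh hM
    exact (abs_le_of_sq_le_sq' this hM).2
  have g0 : 0 ≤ C * g ^ b := le_trans (abs_nonneg _) h1
  calc |f * (κ' * W * v)| = |f| * (|κ'| * |W * v|) := by rw [abs_mul, mul_assoc κ', abs_mul κ']
    _ ≤ |f| * (|κ'| * (g * √h)) := by gcongr
    _ = |g * κ'| * (|f| * √h) := by rw [abs_mul, abs_of_nonneg hg]; ring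
    _ ≤ (C * g ^ b) * M := mul_le_mul h1 e2 (by positivity) g0

lemma bX (hf : f ^ 2 ≤ M) (hv : v ^ 2 ≤ g) (hg : 0 ≤ g) (hgM : g ≤ M) (hH : H ^ 2 ≤ h)
    (hhM : h ≤ M) (hW : W ^ 2 ≤ g * h) (h0 : |κ| ≤ C * g ^ b) (h1 : |g * κ'| ≤ C * g ^ b)
    (hM : 1 ≤ M) (hC : 0 ≤ C) :
    |(2 * a + 1) * f ^ (2 * a) * v * (κ * v) + f ^ (2 * a + 1) * (κ' * (2 * W) * v + κ * H)| ≤
      (2 * a + 4) * C * M ^ (a + b + 1) := by
  have hh : 0 ≤ h := le_trans (sq_nonneg _) hH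
  have M0 : 0 ≤ M := le_trans zero_le_one hM
  have e0 : (2 * a + 1) * f ^ (2 * a) * v * (κ * v) + f ^ (2 * a + 1) * (κ' * (2 * W) * v + κ * H)
      = f ^ (2 * a) * ((2 * a + 1) * (κ * v ^ 2) + 2 * (f * (κ' * W * v)) + κ * (f * H)) := by ring
  have g1 : C * g ^ b ≤ C * M ^ b := by gcongr
  have a1 : |κ * v ^ 2| ≤ C * M ^ b * M := by
    rw [abs_mul, abs_of_nonneg (sq_nonneg v)]
    exact mul_le_mul (h0.trans g1) (hv.trans hgM) (sq_nonneg _) (by positivity)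
  have a2 : |f * (κ' * W * v)| ≤ C * M ^ b * M :=
    (kvw hv hW hh hf hhM hg h1 M0).trans (by gcongr)
  have a3 : |κ * (f * H)| ≤ C * M ^ b * M := by
    rw [abs_mul]
    exact mul_le_mul (h0.trans g1) (ab_le hf (hH.trans hhM) M0) (abs_nonneg _) (by positivity)
  have a4 : |f ^ (2 * a)| ≤ M ^ a := by
    rw [pow_mul, abs_of_nonneg (by positivity)]; gcongr
  rw [e0, abs_mul]
  have a5 : |(2 * a + 1) * (κ * v ^ 2) + 2 * (f * (κ' * W * v)) + κ * (f * H)| ≤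
      (2 * a + 4) * (C * M ^ b * M) := by
    refine (abs_add_le _ _).trans (le_trans (add_le_add (abs_add_le _ _) le_rfl) ?_)
    rw [abs_mul, abs_mul (2 : ℝ), abs_of_nonneg (by positivity : (0 : ℝ) ≤ 2 * a + 1),
      abs_of_nonneg (by norm_num : (0 : ℝ) ≤ 2)]
    have := mul_le_mul_of_nonneg_left a1 (by positivity : (0 : ℝ) ≤ 2 * a + 1)
    nlinarith
  refine (mul_le_mul a4 a5 (abs_nonneg _) (by positivity)).trans (le_of_eq ?_)
  ring

lemma bY {Z : ℝ} (hf : f ^ 2 ≤ M) (hv : v ^ 2 ≤ g) (hg : 0 ≤ g) (hgM : g ≤ M) (hH : H ^ 2 ≤ h)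
    (hhM : h ≤ M) (hW : W ^ 2 ≤ g * h) (h0 : |κ| ≤ C * g ^ b) (h1 : |g * κ'| ≤ C * g ^ b)
    (hM : 1 ≤ M) (hC : 0 ≤ C) (hZ : |Z| ≤ 2 * M) :
    |(2 * a) * f ^ (2 * a - 1) * v * (κ * (W + f * v)) + f ^ (2 * a) * (κ' * (2 * W) *
      (W + f * v) + κ * (Z + (v ^ 2 + f * H)))| ≤ (4 * a + 8) * C * M ^ (a + b + 1) := by
  have hh : 0 ≤ h := le_trans (sq_nonneg _) hH
  have M0 : 0 ≤ M := le_trans zero_le_one hM
  have g1 : C * g ^ b ≤ C * M ^ b := by gcongr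
  have k0 : |κ| ≤ C * M ^ b := h0.trans g1
  have WM : |W| ≤ M := by
    apply abs_le_of_sq_le_sq _ M0
    rw [sq M]; exact hW.trans (mul_le_mul hgM hhM hh M0)
  -- the first term
  have a1 : |(2 * a) * f ^ (2 * a - 1) * v * (κ * (W + f * v))| ≤
      (4 * a) * C * M ^ (a + b + 1) := by
    rcases Nat.eq_zero_or_pos a with ha | ha
    · subst ha; simp
    · obtain ⟨c, rfl⟩ : ∃ c, a = c + 1 := ⟨a - 1, by omega⟩
      have e : (2 * ((c + 1 : ℕ) : ℝ)) * f ^ (2 * (c + 1) - 1) * v * (κ * (W + f * v)) =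
          (2 * ((c + 1 : ℕ) : ℝ)) * f ^ (2 * c) * (κ * ((f * v) * (W + f * v))) := by
        have : 2 * (c + 1) - 1 = 2 * c + 1 := by omega
        rw [this]; ring
      have fv : |f * v| ≤ M := ab_le hf (hv.trans hgM) M0
      have a2 : |(f * v) * (W + f * v)| ≤ 2 * M ^ 2 := by
        rw [abs_mul]
        have : |W + f * v| ≤ 2 * M := (abs_add_le _ _).trans (by linarith)
        nlinarith [abs_nonneg (f * v), abs_nonneg (W + f * v)]
      have a4 : |f ^ (2 * c)| ≤ M ^ c := by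
        rw [pow_mul, abs_of_nonneg (by positivity)]; gcongr
      rw [e, abs_mul, abs_mul, abs_mul κ, abs_of_nonneg (by positivity :
        (0 : ℝ) ≤ 2 * ((c + 1 : ℕ) : ℝ))]
      calc 2 * ((c + 1 : ℕ) : ℝ) * |f ^ (2 * c)| * (|κ| * |(f * v) * (W + f * v)|)
          ≤ 2 * ((c + 1 : ℕ) : ℝ) * M ^ c * ((C * M ^ b) * (2 * M ^ 2)) := by gcongr
        _ = 4 * ((c + 1 : ℕ) : ℝ) * C * M ^ (c + 1 + b + 1) := by ring
  have a2 : |κ' * W ^ 2| ≤ C * M ^ b * M := by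
    have : |κ' * W ^ 2| ≤ |g * κ'| * h := by
      rw [abs_mul, abs_mul, abs_of_nonneg hg, abs_of_nonneg (sq_nonneg W)]
      calc |κ'| * W ^ 2 ≤ |κ'| * (g * h) := by gcongr
        _ = g * |κ'| * h := by ring
    refine this.trans (mul_le_mul (h1.trans g1) hhM hh (by positivity))
  have a3 : |f * (κ' * W * v)| ≤ C * M ^ b * M :=
    (kvw hv hW hh hf hhM hg h1 M0).trans (by gcongr)
  have a5 : |κ * (Z + (v ^ 2 + f * H))| ≤ C * M ^ b * (4 * M) := by
    rw [abs_mul]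
    refine mul_le_mul k0 ?_ (abs_nonneg _) (by positivity)
    refine (abs_add_le _ _).trans (le_trans (add_le_add le_rfl (abs_add_le _ _)) ?_)
    have := ab_le hf (hH.trans hhM) M0
    rw [abs_of_nonneg (sq_nonneg v)]
    linarith
  have a4 : |f ^ (2 * a)| ≤ M ^ a := by
    rw [pow_mul, abs_of_nonneg (by positivity)]; gcongr
  have a6 : |f ^ (2 * a) * (κ' * (2 * W) * (W + f * v) + κ * (Z + (v ^ 2 + f * H)))| ≤
      8 * C * M ^ (a + b + 1) := by
    have e : κ' * (2 * W) * (W + f * v) + κ * (Z + (v ^ 2 + f * H)) =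
        2 * (κ' * W ^ 2) + 2 * (f * (κ' * W * v)) + κ * (Z + (v ^ 2 + f * H)) := by ring
    rw [abs_mul, e]
    have a7 : |2 * (κ' * W ^ 2) + 2 * (f * (κ' * W * v)) + κ * (Z + (v ^ 2 + f * H))| ≤
        8 * (C * M ^ b * M) := by
      refine (abs_add_le _ _).trans (le_trans (add_le_add (abs_add_le _ _) le_rfl) ?_)
      rw [abs_mul (2 : ℝ), abs_mul (2 : ℝ), abs_of_nonneg (by norm_num : (0 : ℝ) ≤ 2)]
      linarith
    refine (mul_le_mul a4 a7 (abs_nonneg _) (by positivity)).trans (le_of_eq ?_)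
    ring
  refine (abs_add_le _ _).trans ((add_le_add a1 a6).trans (le_of_eq ?_))
  ring

end real

variable {S : Type*} [MeasurableSpace S] {P : Measure S} {τ : E d → S → S}

lemma SF.sum {ι : Type*} (t : Finset ι) {f : ι → S → E d → ℝ} (h : ∀ i, SF τ (f i)) :
    SF τ (fun s y => ∑ i ∈ t, f i s y) :=
  ⟨fun y => Finset.measurable_fun_sum t fun i _ => (h i).meas y,
    fun s => ContDiff.sum fun i _ => (h i).smooth s,
    fun x s y => Finset.sum_congr rfl fun i _ => (h i).cov x s y⟩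

lemma SF.add {f g : S → E d → ℝ} (h : SF τ f) (h' : SF τ g) : SF τ (fun s y => f s y + g s y) :=
  ⟨fun y => (h.meas y).add (h'.meas y), fun s => (h.smooth s).add (h'.smooth s),
    fun x s y => by rw [h.cov, h'.cov]⟩

lemma SF.sq {f : S → E d → ℝ} (h : SF τ f) : SF τ (fun s y => f s y ^ 2) :=
  h.comp (k := fun x : ℝ => x ^ 2) (contDiff_id.pow 2)

lemma g2_sf {G : S → E d → ℝ} (h : SF τ G) : SF τ (fun s => g2 (G s)) :=
  SF.sum Finset.univ fun j => SF.sq (h.der j)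

lemma w_sf {G : S → E d → ℝ} (h : SF τ G) (i : Fin d) : SF τ (fun s => w i (G s)) :=
  SF.sum Finset.univ fun j => (h.der j).mul ((h.der j).der i)

lemma X_sf {G : S → E d → ℝ} (h : SF τ G) (a : ℕ) {k : ℝ → ℝ} (hk : ContDiff ℝ ∞ k) (i : Fin d) :
    SF τ (fun s => X a k i (G s)) :=
  (h.comp (k := fun x : ℝ => x ^ (2 * a + 1)) (contDiff_id.pow _)).mul
    (((g2_sf h).comp hk).mul (h.der i))

lemma Y_sf {G : S → E d → ℝ} (h : SF τ G) (a : ℕ) {k : ℝ → ℝ} (hk : ContDiff ℝ ∞ k) (i : Fin d) :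
    SF τ (fun s => Y a k i (G s)) :=
  (h.comp (k := fun x : ℝ => x ^ (2 * a)) (contDiff_id.pow _)).mul
    (((g2_sf h).comp hk).mul (SF.add (w_sf h i) (h.mul (h.der i))))

lemma MM_sf {G : S → E d → ℝ} (h : SF τ G) : SF τ (fun s => MM (G s)) := by
  have c : SF τ (fun (_ : S) (_ : E d) => (1 : ℝ)) :=
    ⟨fun _ => measurable_const, fun _ => contDiff_const, fun _ _ _ => rfl⟩
  exact SF.add (SF.add (SF.add (SF.add c (SF.sq h)) (g2_sf h))
    (SF.sum Finset.univ fun i => SF.sum Finset.univ fun j => SF.sq ((h.der j).der i)))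
    (SF.sum Finset.univ fun i => SF.sum Finset.univ fun j => SF.sq (((h.der j).der i).der i))

/-- the bounds at a point -/
lemma X_bd {f : E d → ℝ} (hf : ContDiff ℝ ∞ f) {k : ℝ → ℝ} {b : ℕ} {C : ℝ} (K : KB k b C) (a : ℕ)
    (i : Fin d) (y : E d) : |X a k i f y| ≤ C * MM f y ^ (a + b + 1) ∧
      |D i (X a k i f) y| ≤ (2 * a + 4) * C * MM f y ^ (a + b + 1) := by
  have g := g2_nn f y; have t := TT_nn f y; have hh := HS_nn f y; have s := sq_nonneg (f y)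
  have m1 : g2 f y ≤ MM f y := by unfold MM; linarith
  have m2 : HS f y ≤ MM f y := by unfold MM; linarith
  have m3 : f y ^ 2 ≤ MM f y := by unfold MM; linarith
  have M1 := MM_one f y
  have C0 := K.C0
  have M0 : 0 ≤ MM f y := le_trans zero_le_one M1
  constructor
  · unfold X
    have e : f y ^ (2 * a + 1) * (k (g2 f y) * D i f y) =
        f y ^ (2 * a) * (k (g2 f y) * (f y * D i f y)) := by ring
    have a4 : |f y ^ (2 * a)| ≤ MM f y ^ a := by
      rw [pow_mul, abs_of_nonneg (by positivity)]; gcongr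
    have k0 : |k (g2 f y)| ≤ C * MM f y ^ b := (K.b0 _ g).trans (by gcongr)
    have fv := ab_le m3 ((v_le f y i).trans m1) M0
    rw [e, abs_mul, abs_mul]
    calc |f y ^ (2 * a)| * (|k (g2 f y)| * |f y * D i f y|)
        ≤ MM f y ^ a * ((C * MM f y ^ b) * MM f y) := by gcongr
      _ = C * MM f y ^ (a + b + 1) := by ring
  · rw [D_X hf K.sm]
    exact bX m3 (v_le f y i) g m1 (h_le f y i i) m2 (w_le f y i) (K.b0 _ g) (K.b1 _ g) M1 C0

lemma Y_bd {f : E d → ℝ} (hf : ContDiff ℝ ∞ f) {k : ℝ → ℝ} {b : ℕ} {C : ℝ} (K : KB k b C) (a : ℕ)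
    (i : Fin d) (y : E d) : |Y a k i f y| ≤ 2 * C * MM f y ^ (a + b + 1) ∧
      |D i (Y a k i f) y| ≤ (4 * a + 8) * C * MM f y ^ (a + b + 1) := by
  have g := g2_nn f y; have t := TT_nn f y; have hh := HS_nn f y; have s := sq_nonneg (f y)
  have m1 : g2 f y ≤ MM f y := by unfold MM; linarith
  have m2 : HS f y ≤ MM f y := by unfold MM; linarith
  have m3 : f y ^ 2 ≤ MM f y := by unfold MM; linarith
  have M1 := MM_one f y
  have C0 := K.C0
  have M0 : 0 ≤ MM f y := le_trans zero_le_one M1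
  constructor
  · unfold Y
    have a4 : |f y ^ (2 * a)| ≤ MM f y ^ a := by
      rw [pow_mul, abs_of_nonneg (by positivity)]; gcongr
    have k0 : |k (g2 f y)| ≤ C * MM f y ^ b := (K.b0 _ g).trans (by gcongr)
    have fv := ab_le m3 ((v_le f y i).trans m1) M0
    have WM : |w i f y| ≤ MM f y := by
      apply abs_le_of_sq_le_sq _ M0
      rw [sq (MM f y)]; exact (w_le f y i).trans (mul_le_mul m1 m2 hh M0)
    have z : |w i f y + f y * D i f y| ≤ 2 * MM f y := (abs_add_le _ _).trans (by linarith)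
    rw [abs_mul, abs_mul]
    calc |f y ^ (2 * a)| * (|k (g2 f y)| * |w i f y + f y * D i f y|)
        ≤ MM f y ^ a * ((C * MM f y ^ b) * (2 * MM f y)) := by gcongr
      _ = 2 * C * MM f y ^ (a + b + 1) := by ring
  · rw [D_Y hf K.sm]
    refine bY m3 (v_le f y i) g m1 (h_le f y i i) m2 (w_le f y i) (K.b0 _ g) (K.b1 _ g) M1 C0 ?_
    rw [D_w hf, Finset.sum_add_distrib]
    refine (abs_add_le _ _).trans ?_
    rw [abs_of_nonneg (Finset.sum_nonneg fun j _ => sq_nonneg _)]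
    have := row_le f y i; have := t_le f y i
    linarith

/-- first identity -/
theorem idX [IsProbabilityMeasure P] (hτ : ∀ x, MeasurePreserving (τ x) P P) {G : S → E d → ℝ}
    (W : Wave P τ G) {k : ℝ → ℝ} {b : ℕ} {C : ℝ} (K : KB k b C) (a : ℕ)
    (hM : Integrable (fun s => MM (G s) 0 ^ (a + b + 1)) P) :
    Integrable (fun s => G s 0 ^ (2 * a) * ((2 * a + 1) * k (g2 (G s) 0) * g2 (G s) 0 +
      2 * G s 0 * deriv k (g2 (G s) 0) * Q (G s) 0 - k (g2 (G s) 0) * G s 0 ^ 2)) P ∧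
    ∫ s, G s 0 ^ (2 * a) * ((2 * a + 1) * k (g2 (G s) 0) * g2 (G s) 0 +
      2 * G s 0 * deriv k (g2 (G s) 0) * Q (G s) 0 - k (g2 (G s) 0) * G s 0 ^ 2) ∂P = 0 := by
  have e : ∀ s, G s 0 ^ (2 * a) * ((2 * a + 1) * k (g2 (G s) 0) * g2 (G s) 0 +
      2 * G s 0 * deriv k (g2 (G s) 0) * Q (G s) 0 - k (g2 (G s) 0) * G s 0 ^ 2) =
      ∑ i, D i (X a k i (G s)) 0 := fun s => (div_X (W.sf.smooth s) (W.eq s) K.sm a 0).symm
  have i1 : ∀ i, Integrable (fun s => D i (X a k i (G s)) 0) P := fun i =>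
    Integrable.mono' (hM.const_mul ((2 * a + 4) * C)) (((X_sf W.sf a K.sm i).der i).meas 0).aestronglyMeasurable
      (ae_of_all _ fun s => (X_bd (W.sf.smooth s) K a i 0).2)
  have i0 : ∀ i, Integrable (fun s => X a k i (G s) 0) P := fun i =>
    Integrable.mono' (hM.const_mul C) ((X_sf W.sf a K.sm i).meas 0).aestronglyMeasurable
      (ae_of_all _ fun s => (X_bd (W.sf.smooth s) K a i 0).1)
  simp only [e]
  refine ⟨integrable_finsetSum _ fun i _ => i1 i, ?_⟩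
  rw [integral_finsetSum _ fun i _ => i1 i]
  exact Finset.sum_eq_zero fun i _ => div0 hτ (X_sf W.sf a K.sm i) i (i0 i) (i1 i)

/-- second identity -/
theorem idY [IsProbabilityMeasure P] (hτ : ∀ x, MeasurePreserving (τ x) P P) {G : S → E d → ℝ}
    (W : Wave P τ G) {k : ℝ → ℝ} {b : ℕ} {C : ℝ} (K : KB k b C) (a : ℕ)
    (hM : Integrable (fun s => MM (G s) 0 ^ (a + b + 1)) P) :
    Integrable (fun s => (2 * a) * G s 0 ^ (2 * a - 1) * k (g2 (G s) 0) *
      (Q (G s) 0 + G s 0 * g2 (G s) 0) +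
      G s 0 ^ (2 * a) * (2 * deriv k (g2 (G s) 0) * (R (G s) 0 + G s 0 * Q (G s) 0) +
        k (g2 (G s) 0) * (HS (G s) 0 - G s 0 ^ 2))) P ∧
    ∫ s, ((2 * a) * G s 0 ^ (2 * a - 1) * k (g2 (G s) 0) *
      (Q (G s) 0 + G s 0 * g2 (G s) 0) +
      G s 0 ^ (2 * a) * (2 * deriv k (g2 (G s) 0) * (R (G s) 0 + G s 0 * Q (G s) 0) +
        k (g2 (G s) 0) * (HS (G s) 0 - G s 0 ^ 2))) ∂P = 0 := by
  have e : ∀ s, (2 * a) * G s 0 ^ (2 * a - 1) * k (g2 (G s) 0) *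
      (Q (G s) 0 + G s 0 * g2 (G s) 0) +
      G s 0 ^ (2 * a) * (2 * deriv k (g2 (G s) 0) * (R (G s) 0 + G s 0 * Q (G s) 0) +
        k (g2 (G s) 0) * (HS (G s) 0 - G s 0 ^ 2)) =
      ∑ i, D i (Y a k i (G s)) 0 := fun s => (div_Y (W.sf.smooth s) (W.eq s) K.sm a 0).symm
  have i1 : ∀ i, Integrable (fun s => D i (Y a k i (G s)) 0) P := fun i =>
    Integrable.mono' (hM.const_mul ((4 * a + 8) * C)) (((Y_sf W.sf a K.sm i).der i).meas 0).aestronglyMeasurable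
      (ae_of_all _ fun s => (Y_bd (W.sf.smooth s) K a i 0).2)
  have i0 : ∀ i, Integrable (fun s => Y a k i (G s) 0) P := fun i =>
    Integrable.mono' (hM.const_mul (2 * C)) ((Y_sf W.sf a K.sm i).meas 0).aestronglyMeasurable
      (ae_of_all _ fun s => (Y_bd (W.sf.smooth s) K a i 0).1)
  simp only [e]
  refine ⟨integrable_finsetSum _ fun i _ => i1 i, ?_⟩
  rw [integral_finsetSum _ fun i _ => i1 i]
  exact Finset.sum_eq_zero fun i _ => div0 hτ (Y_sf W.sf a K.sm i) i (i0 i) (i1 i)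

end

end Pool.Agent.Q73.SM
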