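import Pool.Agent.Q73.SM.B

/-!
# Even moments of stationary waves: moments of the derivatives (project SM)
-/

set_option autoImplicit false
open MeasureTheory Filter Topology
open scoped ContDiff ENNReal

namespace Pool.Agent.Q73.SM

open Pool.Agent.Y139.SW

noncomputable section

/-- the truncated weight -/
def kq (ε x : ℝ) : ℝ := x / √(1 + ε * x ^ 2)

section kq

variable {ε : ℝ}

lemma kq_pos (hε : 0 < ε) (x : ℝ) : 0 < 1 + ε * x ^ 2 := by positivity

lemma kq_d (hε : 0 < ε) (x : ℝ) :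
    HasDerivAt (kq ε) (1 / ((1 + ε * x ^ 2) * √(1 + ε * x ^ 2))) x := by
  have p := kq_pos hε x
  have h1 : HasDerivAt (fun x : ℝ => 1 + ε * x ^ 2) (ε * (2 * x)) x := by
    have := (((hasDerivAt_id x).pow 2).const_mul ε).const_add 1
    simpa using this
  have h2 := h1.sqrt p.ne'
  have h3 := (hasDerivAt_id x).div h2 (Real.sqrt_pos.2 p).ne'
  refine h3.congr_deriv ?_
  have s := Real.sq_sqrt p.le
  have s0 := (Real.sqrt_pos.2 p).ne'
  simp only [id]
  field_simp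
  rw [s]; ring

lemma kq_sm (hε : 0 < ε) : ContDiff ℝ ∞ (kq ε) := by
  unfold kq
  refine contDiff_id.div ?_ fun x => (Real.sqrt_pos.2 (kq_pos hε x)).ne'
  refine ContDiff.sqrt ?_ fun x => (kq_pos hε x).ne'
  exact contDiff_const.add (contDiff_const.mul (contDiff_id.pow 2))

lemma kq_nn {x : ℝ} (hx : 0 ≤ x) : 0 ≤ kq ε x := div_nonneg hx (Real.sqrt_nonneg _)

lemma kq_le (hε : 0 < ε) {x : ℝ} (hx : 0 ≤ x) : kq ε x ≤ x := by
  unfold kq
  refine div_le_self hx ?_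
  rw [Real.one_le_sqrt]
  nlinarith [sq_nonneg x]

lemma kq_bd (hε : 0 < ε) {x : ℝ} (hx : 0 ≤ x) : kq ε x ≤ 1 / √ε := by
  unfold kq
  rw [div_le_div_iff₀ (Real.sqrt_pos.2 (kq_pos hε x)) (Real.sqrt_pos.2 hε), one_mul]
  have : x * √ε = √(ε * x ^ 2) := by
    rw [Real.sqrt_mul hε.le, Real.sqrt_sq hx]; ring
  rw [this]
  exact Real.sqrt_le_sqrt (by linarith)

end kq

/-- the power of the truncated weight -/
def kk (ε : ℝ) (m : ℕ) (x : ℝ) : ℝ := kq ε x ^ m

lemma kk_dv {ε : ℝ} (hε : 0 < ε) (m : ℕ) {x : ℝ} (hx : 0 ≤ x) :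
    0 ≤ deriv (kk ε m) x ∧ 0 ≤ x * deriv (kk ε m) x ∧
      x * deriv (kk ε m) x ≤ m * kk ε m x := by
  have p := kq_pos hε x
  have h : HasDerivAt (kk ε m) (m * kq ε x ^ (m - 1) *
      (1 / ((1 + ε * x ^ 2) * √(1 + ε * x ^ 2)))) x := (kq_d hε x).pow m
  have q0 := kq_nn (ε := ε) hx
  have d0 : 0 ≤ deriv (kk ε m) x := by
    rw [h.deriv]; positivity
  refine ⟨d0, mul_nonneg hx d0, ?_⟩
  rw [h.deriv]
  rcases Nat.eq_zero_or_pos m with hm | hm
  · subst hm; simp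
  have e : x * (m * kq ε x ^ (m - 1) * (1 / ((1 + ε * x ^ 2) * √(1 + ε * x ^ 2)))) =
      m * kq ε x ^ m * (1 / (1 + ε * x ^ 2)) := by
    obtain ⟨c, rfl⟩ : ∃ c, m = c + 1 := ⟨m - 1, by omega⟩
    simp only [Nat.add_sub_cancel]
    have e1 : x * (1 / ((1 + ε * x ^ 2) * √(1 + ε * x ^ 2))) =
        kq ε x * (1 / (1 + ε * x ^ 2)) := by
      have s0 := (Real.sqrt_pos.2 p).ne'
      unfold kq
      field_simp
    calc x * (((c + 1 : ℕ) : ℝ) * kq ε x ^ c * (1 / ((1 + ε * x ^ 2) * √(1 + ε * x ^ 2))))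
        = ((c + 1 : ℕ) : ℝ) * kq ε x ^ c * (x * (1 / ((1 + ε * x ^ 2) *
          √(1 + ε * x ^ 2)))) := by ring
      _ = _ := by rw [e1, pow_succ]; ring
  rw [e]
  unfold kk
  refine mul_le_of_le_one_right (by positivity) ?_
  rw [div_le_one p]
  nlinarith [sq_nonneg x]

lemma kk_KB {ε : ℝ} (hε : 0 < ε) (m : ℕ) : KB (kk ε m) 0 ((m + 1) * (1 / √ε) ^ m) := by
  have b : ∀ x, 0 ≤ x → kk ε m x ≤ (1 / √ε) ^ m := fun x hx => by
    unfold kk
    exact pow_le_pow_left₀ (kq_nn hx) (kq_bd hε hx) m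
  have n : ∀ x, 0 ≤ x → 0 ≤ kk ε m x := fun x hx => pow_nonneg (kq_nn hx) m
  have c0 : 0 ≤ (1 / √ε) ^ m := by positivity
  refine ⟨(kq_sm hε).pow m, by positivity, fun x hx => ?_, fun x hx => ?_⟩
  · rw [pow_zero, mul_one, abs_of_nonneg (n x hx)]
    have := b x hx
    nlinarith
  · rw [pow_zero, mul_one, abs_of_nonneg (kk_dv hε m hx).2.1]
    refine (kk_dv hε m hx).2.2.trans ?_
    have := b x hx
    have m0 : (0 : ℝ) ≤ m := Nat.cast_nonneg m
    nlinarith [mul_le_mul_of_nonneg_left this m0]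

/-- the pointwise inequality for the gradient moments -/
lemma pt_grad {s q g κ' r h T : ℝ} {m : ℕ} (hg : 0 ≤ g) (hq : 0 ≤ q) (hqg : q ≤ g)
    (hr : 0 ≤ r) (hh : 0 ≤ h) (hk : 0 ≤ κ') (hgk : g * κ' ≤ m * q ^ m) (hT : T ^ 2 ≤ g * r) :
    1 / 2 * (q ^ m * g) ≤ (q ^ m * g + 2 * s * κ' * T - q ^ m * s ^ 2) +
      (2 * κ' * (r + s * T) + q ^ m * (h - s ^ 2)) +
      2 * (m + 1) * (4 * (m + 1)) ^ m * s ^ (2 * (m + 1)) := by
  have m0 : (0 : ℝ) ≤ m := Nat.cast_nonneg m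
  have st : |2 * (s * T)| ≤ r + s ^ 2 * g := by
    apply abs_le_of_sq_le_sq _ (by positivity)
    nlinarith [sq_nonneg (r - s ^ 2 * g), mul_le_mul_of_nonneg_left hT (sq_nonneg s)]
  have st1 := (abs_le.1 st).1
  have y : q ^ m * s ^ 2 ≤ 1 / (4 * (m + 1)) * (q ^ m * g) +
      (4 * (m + 1)) ^ m * s ^ (2 * (m + 1)) := by
    have e2 : s ^ (2 * (m + 1)) = (s ^ 2) ^ m * s ^ 2 := by rw [pow_mul, pow_succ]
    have k0 : (0 : ℝ) < 4 * (m + 1) := by positivity
    rcases le_total (s ^ 2) (1 / (4 * (m + 1)) * q) with hc | hc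
    · have : q ^ m * s ^ 2 ≤ q ^ m * (1 / (4 * (m + 1)) * g) := by
        refine mul_le_mul_of_nonneg_left (hc.trans ?_) (by positivity)
        gcongr
      have : 0 ≤ (4 * ((m : ℝ) + 1)) ^ m * s ^ (2 * (m + 1)) := by rw [e2]; positivity
      linarith
    · have hq2 : q ≤ 4 * (m + 1) * s ^ 2 := by
        rw [one_div, inv_mul_le_iff₀ k0] at hc
        exact hc
      have : q ^ m * s ^ 2 ≤ (4 * (m + 1) * s ^ 2) ^ m * s ^ 2 := by gcongr
      have e3 : (4 * (m + 1) * s ^ 2) ^ m * s ^ 2 =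
          (4 * ((m : ℝ) + 1)) ^ m * s ^ (2 * (m + 1)) := by rw [e2, mul_pow]; ring
      have : 0 ≤ 1 / (4 * ((m : ℝ) + 1)) * (q ^ m * g) := by positivity
      linarith
  have y2 := mul_le_mul_of_nonneg_left y (by positivity : (0 : ℝ) ≤ 2 * (m + 1))
  have e4 : 2 * ((m : ℝ) + 1) * (1 / (4 * (m + 1)) * (q ^ m * g) +
      (4 * (m + 1)) ^ m * s ^ (2 * (m + 1))) = 1 / 2 * (q ^ m * g) +
      2 * (m + 1) * (4 * (m + 1)) ^ m * s ^ (2 * (m + 1)) := by
    have : ((m : ℝ) + 1) ≠ 0 := by positivity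
    field_simp
    ring
  rw [e4] at y2
  have z1 : κ' * (-(r + s ^ 2 * g)) ≤ κ' * (2 * (s * T)) := mul_le_mul_of_nonneg_left st1 hk
  have z2 : g * κ' * s ^ 2 ≤ m * q ^ m * s ^ 2 := mul_le_mul_of_nonneg_right hgk (sq_nonneg s)
  have z3 : 0 ≤ q ^ m * h := by positivity
  have z4 : 0 ≤ κ' * r := by positivity
  nlinarith

variable {d : ℕ} {S : Type*} [MeasurableSpace S] {P : Measure S} {τ : E d → S → S}

theorem grad_mom [IsProbabilityMeasure P] (hτ : ∀ x, MeasurePreserving (τ x) P P)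
    {G : S → E d → ℝ} (W : Wave P τ G) (m : ℕ)
    (hp : Integrable (fun s => G s 0 ^ (2 * (m + 1))) P) :
    Integrable (fun s => g2 (G s) 0 ^ (m + 1)) P := by
  have W1 := fun i => W.der hτ i
  have W2 := fun i j => (W1 j).der hτ i
  have W3 := fun i j => (W2 i j).der hτ i
  have iM : Integrable (fun s => MM (G s) 0 ^ (0 + 0 + 1)) P := by
    simp only [zero_add, pow_one, MM, g2, HS, TT]
    refine (((integrable_const 1).add W.l2).add ?_).add ?_ |>.add ?_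
    · exact integrable_finsetSum _ fun i _ => (W1 i).l2
    · exact integrable_finsetSum _ fun i _ => integrable_finsetSum _ fun j _ => (W2 i j).l2
    · exact integrable_finsetSum _ fun i _ => integrable_finsetSum _ fun j _ => (W3 i j).l2
  set c : ℝ := 2 * (m + 1) * (4 * (m + 1)) ^ m with hc
  have mg : Measurable fun s => g2 (G s) 0 := (g2_sf W.sf).meas 0
  have key : ∀ ε : ℝ, 0 < ε → ∫⁻ s, ENNReal.ofReal (kk ε m (g2 (G s) 0) * g2 (G s) 0) ∂P ≤
      ENNReal.ofReal (2 * (c * ∫ s, G s 0 ^ (2 * (m + 1)) ∂P)) := by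
    intro ε hε
    obtain ⟨ix, ex⟩ := idX hτ W (kk_KB hε m) 0 iM
    obtain ⟨iy, ey⟩ := idY hτ W (kk_KB hε m) 0 iM
    have pt : ∀ s, 1 / 2 * (kk ε m (g2 (G s) 0) * g2 (G s) 0) ≤
        (G s 0 ^ (2 * 0) * ((2 * (0 : ℕ) + 1) * kk ε m (g2 (G s) 0) * g2 (G s) 0 +
      2 * G s 0 * deriv (kk ε m) (g2 (G s) 0) * Q (G s) 0 - kk ε m (g2 (G s) 0) * G s 0 ^ 2)) +
      ((2 * (0 : ℕ)) * G s 0 ^ (2 * 0 - 1) * kk ε m (g2 (G s) 0) *
      (Q (G s) 0 + G s 0 * g2 (G s) 0) +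
      G s 0 ^ (2 * 0) * (2 * deriv (kk ε m) (g2 (G s) 0) * (R (G s) 0 + G s 0 * Q (G s) 0) +
        kk ε m (g2 (G s) 0) * (HS (G s) 0 - G s 0 ^ 2))) + c * G s 0 ^ (2 * (m + 1)) := by
      intro s
      have h := pt_grad (s := G s 0) (q := kq ε (g2 (G s) 0)) (g := g2 (G s) 0)
        (κ' := deriv (kk ε m) (g2 (G s) 0)) (r := R (G s) 0) (h := HS (G s) 0) (T := Q (G s) 0)
        (m := m) (g2_nn _ _) (kq_nn (g2_nn _ _)) (kq_le hε (g2_nn _ _)) (R_nn _ _) (HS_nn _ _)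
        (kk_dv hε m (g2_nn _ _)).1 (kk_dv hε m (g2_nn _ _)).2.2 (Q_le _ _)
      have e : kk ε m (g2 (G s) 0) = kq ε (g2 (G s) 0) ^ m := rfl
      rw [e, hc]
      refine h.trans (le_of_eq ?_)
      simp
    have nn : ∀ s, 0 ≤ kk ε m (g2 (G s) 0) * g2 (G s) 0 := fun s =>
      mul_nonneg (pow_nonneg (kq_nn (g2_nn _ _)) m) (g2_nn _ _)
    have mk : Measurable fun s => kk ε m (g2 (G s) 0) * g2 (G s) 0 :=
      ((kk_KB hε m).sm.continuous.measurable.comp mg).mul mg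
    have iR := (ix.add iy).add (hp.const_mul c)
    have iL : Integrable (fun s => kk ε m (g2 (G s) 0) * g2 (G s) 0) P := by
      refine Integrable.mono' (iR.const_mul 2) mk.aestronglyMeasurable (ae_of_all _ fun s => ?_)
      rw [Real.norm_eq_abs, abs_of_nonneg (nn s)]
      have h2 := mul_le_mul_of_nonneg_left (pt s) (by norm_num : (0 : ℝ) ≤ 2)
      refine le_trans (le_of_eq ?_) h2
      ring
    rw [← ofReal_integral_eq_lintegral_ofReal iL (ae_of_all _ nn)]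
    refine ENNReal.ofReal_le_ofReal ?_
    have h1 : ∫ s, 1 / 2 * (kk ε m (g2 (G s) 0) * g2 (G s) 0) ∂P ≤ _ :=
      integral_mono (iL.const_mul (1 / 2)) iR pt
    rw [integral_add' (ix.add iy) (hp.const_mul c), integral_add' ix iy, ex, ey,
      integral_const_mul, integral_const_mul] at h1
    linarith
  have lim : ∀ s, Tendsto (fun n : ℕ => ENNReal.ofReal (kk (1 / ((n : ℝ) + 1)) m (g2 (G s) 0) *
      g2 (G s) 0)) atTop (𝓝 (ENNReal.ofReal (g2 (G s) 0 ^ (m + 1)))) := by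
    intro s
    refine ENNReal.tendsto_ofReal ?_
    rw [pow_succ]
    refine Tendsto.mul_const _ ?_
    unfold kk
    refine Tendsto.pow ?_ m
    unfold kq
    have h1 : Tendsto (fun n : ℕ => √(1 + 1 / ((n : ℝ) + 1) * g2 (G s) 0 ^ 2)) atTop
        (𝓝 (√(1 + 0 * g2 (G s) 0 ^ 2))) :=
      (Real.continuous_sqrt.tendsto _).comp
        ((tendsto_one_div_add_atTop_nhds_zero_nat.mul_const _).const_add 1)
    rw [zero_mul, add_zero, Real.sqrt_one] at h1
    have h2 := (tendsto_const_nhds (x := g2 (G s) 0)).div h1 one_ne_zero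
    rwa [div_one] at h2
  have mf : ∀ n : ℕ, Measurable fun s => ENNReal.ofReal (kk (1 / ((n : ℝ) + 1)) m (g2 (G s) 0) *
      g2 (G s) 0) := fun n =>
    ((((kk_KB (by positivity : (0 : ℝ) < 1 / ((n : ℝ) + 1)) m).sm.continuous.measurable).comp mg).mul
      mg).ennreal_ofReal
  have fa := lintegral_liminf_le (u := atTop) (μ := P) mf
  have e1 : ∀ s, liminf (fun n : ℕ => ENNReal.ofReal (kk (1 / ((n : ℝ) + 1)) m (g2 (G s) 0) *
      g2 (G s) 0)) atTop = ENNReal.ofReal (g2 (G s) 0 ^ (m + 1)) := fun s => (lim s).liminf_eq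
  simp only [e1] at fa
  have bd : liminf (fun n : ℕ => ∫⁻ s, ENNReal.ofReal (kk (1 / ((n : ℝ) + 1)) m (g2 (G s) 0) *
      g2 (G s) 0) ∂P) atTop ≤ ENNReal.ofReal (2 * (c * ∫ s, G s 0 ^ (2 * (m + 1)) ∂P)) := by
    refine liminf_le_of_frequently_le' (Frequently.of_forall fun n => ?_)
    exact key _ (by positivity)
  have fin : ∫⁻ s, ENNReal.ofReal (g2 (G s) 0 ^ (m + 1)) ∂P ≠ ⊤ :=
    ((fa.trans bd).trans_lt ENNReal.ofReal_lt_top).ne
  exact (lintegral_ofReal_ne_top_iff_integrable (mg.pow_const _).aestronglyMeasurable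
    (ae_of_all _ fun s => pow_nonneg (g2_nn _ _) _)).1 fin

/-- moments of the first derivatives -/
theorem der_mom [IsProbabilityMeasure P] (hτ : ∀ x, MeasurePreserving (τ x) P P)
    {G : S → E d → ℝ} (W : Wave P τ G) (m : ℕ)
    (hp : Integrable (fun s => G s 0 ^ (2 * (m + 1))) P) (i : Fin d) :
    Integrable (fun s => D i (G s) 0 ^ (2 * (m + 1))) P := by
  refine Integrable.mono' (grad_mom hτ W m hp)
    (((W.sf.der i).meas 0).pow_const _).aestronglyMeasurable (ae_of_all _ fun s => ?_)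
  rw [pow_mul, Real.norm_eq_abs, abs_of_nonneg (by positivity)]
  exact pow_le_pow_left₀ (sq_nonneg _) (v_le _ _ i) _

section Ip

/-- nonnegative random variables with finite `n`-th moment -/
structure Ip (P : Measure S) (n : ℕ) (A : S → ℝ) : Prop where
  m : Measurable A
  nn : ∀ s, 0 ≤ A s
  i : Integrable (fun s => A s ^ n) P

lemma Ip.add {n : ℕ} {A B : S → ℝ} (a : Ip P n A) (b : Ip P n B) :
    Ip P n (fun s => A s + B s) := by
  refine ⟨a.m.add b.m, fun s => add_nonneg (a.nn s) (b.nn s), ?_⟩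
  refine Integrable.mono' ((a.i.add b.i).const_mul (2 ^ (n - 1)))
    ((a.m.add b.m).pow_const _).aestronglyMeasurable (ae_of_all _ fun s => ?_)
  rw [Real.norm_eq_abs, abs_of_nonneg (pow_nonneg (add_nonneg (a.nn s) (b.nn s)) _)]
  exact add_pow_le (a.nn s) (b.nn s) n

lemma Ip.sum [IsFiniteMeasure P] {n : ℕ} {ι : Type*} (t : Finset ι) {A : ι → S → ℝ}
    (h : ∀ i, Ip P (n + 1) (A i)) : Ip P (n + 1) (fun s => ∑ i ∈ t, A i s) := by
  classical
  induction t using Finset.induction_on with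
  | empty =>
    simp only [Finset.sum_empty]
    exact ⟨measurable_const, fun _ => le_rfl, by simp⟩
  | insert i t hi ih =>
    simp only [Finset.sum_insert hi]
    exact (h i).add ih

end Ip

/-- all products of total degree `2 (m + 1)` of derivatives are integrable -/
theorem MM_int [IsProbabilityMeasure P] (hτ : ∀ x, MeasurePreserving (τ x) P P)
    {G : S → E d → ℝ} (W : Wave P τ G) (m : ℕ)
    (hp : Integrable (fun s => G s 0 ^ (2 * (m + 1))) P) :
    Integrable (fun s => MM (G s) 0 ^ (m + 1)) P := by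
  have W1 := fun i => W.der hτ i
  have W2 := fun i j => (W1 j).der hτ i
  have W3 := fun i j => (W2 i j).der hτ i
  have h1 := fun i => der_mom hτ W m hp i
  have h2 := fun i j => der_mom hτ (W1 j) m (h1 j) i
  have h3 := fun i j => der_mom hτ (W2 i j) m (h2 i j) i
  have ip : ∀ {H : S → E d → ℝ}, Wave P τ H → Integrable (fun s => H s 0 ^ (2 * (m + 1))) P →
      Ip P (m + 1) (fun s => H s 0 ^ 2) := fun {H} w h =>
    ⟨w.m0.pow_const 2, fun s => sq_nonneg _, by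
      refine h.congr (ae_of_all _ fun s => ?_)
      show H s 0 ^ (2 * (m + 1)) = (H s 0 ^ 2) ^ (m + 1)
      rw [pow_mul]⟩
  have i0 : Ip P (m + 1) (fun _ => (1 : ℝ)) :=
    ⟨measurable_const, fun _ => zero_le_one, by simp⟩
  have := (((i0.add (ip W hp)).add (Ip.sum Finset.univ fun i => ip (W1 i) (h1 i))).add
    (Ip.sum Finset.univ fun i => Ip.sum Finset.univ fun j => ip (W2 i j) (h2 i j))).add
    (Ip.sum Finset.univ fun i => Ip.sum Finset.univ fun j => ip (W3 i j) (h3 i j))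
  exact this.i

end

end Pool.Agent.Q73.SM
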