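import Pool.Agent.Q73.SM.C

/-!
# Even moments of stationary waves: the recursion (project SM)
-/

set_option autoImplicit false
open MeasureTheory Filter Topology
open scoped ContDiff ENNReal

namespace Pool.Agent.Q73.SM

open Pool.Agent.Y139.SW

noncomputable section

lemma pow_KB (b : ℕ) : KB (fun x : ℝ => x ^ b) b (b + 1) := by
  refine ⟨contDiff_id.pow b, by positivity, fun x hx => ?_, fun x hx => ?_⟩
  · show |x ^ b| ≤ _
    rw [abs_of_nonneg (by positivity)]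
    have : 0 ≤ x ^ b := by positivity
    have b0 : (0 : ℝ) ≤ b := Nat.cast_nonneg b
    nlinarith
  · have e : x * deriv (fun x : ℝ => x ^ b) x = b * x ^ b := by
      rw [deriv_pow_field]
      rcases Nat.eq_zero_or_pos b with hb | hb
      · subst hb; simp
      · obtain ⟨c, rfl⟩ : ∃ c, b = c + 1 := ⟨b - 1, by omega⟩
        simp only [Nat.add_sub_cancel]; ring
    rw [e, abs_of_nonneg (by positivity)]
    have : 0 ≤ x ^ b := by positivity
    nlinarith

/-- the algebraic inequality -/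
lemma bracket {s g T r h : ℝ} (hg : 0 ≤ g) (hr : 0 ≤ r) (hT : T ^ 2 ≤ g * r) (hrg : r ≤ g * h)
    (k : ℕ) : 0 ≤ g * (h - s ^ 2) + 2 * (k + 1) * (r + s * T) + (2 * k + 4) * (s * (T + s * g)) := by
  have k0 : (0 : ℝ) ≤ k := Nat.cast_nonneg k
  rcases hg.eq_or_lt with hg0 | hg0
  · have g0 : g = 0 := hg0.symm
    subst g0
    have r0 : r = 0 := le_antisymm (by simpa using hrg) hr
    have T0 : T = 0 := by
      have : T ^ 2 ≤ 0 := by simpa using hT
      nlinarith [sq_nonneg T, pow_eq_zero_iff (two_ne_zero) |>.1 (le_antisymm this (sq_nonneg T))]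
    subst r0; subst T0
    simp
  · have a1 : r ≤ g * h := hrg
    have a2 : T ^ 2 / g ≤ r := by rw [div_le_iff₀ hg0]; linarith
    have e : g * (h - s ^ 2) + 2 * (k + 1) * (r + s * T) + (2 * k + 4) * (s * (T + s * g)) =
        (g * h - r) + (2 * k + 3) * (r - T ^ 2 / g) + (2 * k + 3) * ((T + s * g) ^ 2 / g) := by
      field_simp; ring
    rw [e]
    have : 0 ≤ (T + s * g) ^ 2 / g := by positivity
    have : 0 ≤ (2 * (k : ℝ) + 3) * (r - T ^ 2 / g) := mul_nonneg (by positivity) (by linarith)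
    positivity

variable {d : ℕ} {S : Type*} [MeasurableSpace S] {P : Measure S} {τ : E d → S → S}

/-- the moments -/
def mo (P : Measure S) (G : S → E d → ℝ) (a b : ℕ) : ℝ :=
  ∫ s, G s 0 ^ (2 * a) * g2 (G s) 0 ^ b ∂P

/-- the auxiliary moments -/
def xo (P : Measure S) (G : S → E d → ℝ) (j k : ℕ) : ℝ :=
  ∫ s, G s 0 ^ (2 * j + 1) * g2 (G s) 0 ^ k * (Q (G s) 0 + G s 0 * g2 (G s) 0) ∂P

lemma Q_sf {G : S → E d → ℝ} (h : SF τ G) : SF τ (fun s => Q (G s)) :=
  SF.sum Finset.univ fun i => (h.der i).mul (w_sf h i)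

lemma pw_le (f : E d → ℝ) (y : E d) (a : ℕ) : f y ^ (2 * a) ≤ MM f y ^ a := by
  rw [pow_mul]
  refine pow_le_pow_left₀ (sq_nonneg _) ?_ a
  have g := g2_nn f y; have t := TT_nn f y; have hh := HS_nn f y
  unfold MM; linarith

lemma g2_le (f : E d → ℝ) (y : E d) : g2 f y ≤ MM f y := by
  have g := g2_nn f y; have t := TT_nn f y; have hh := HS_nn f y; have := sq_nonneg (f y)
  unfold MM; linarith

lemma mo_int {G : S → E d → ℝ} (W : Wave P τ G) (a b p : ℕ) (hab : a + b = p)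
    (hM : Integrable (fun s => MM (G s) 0 ^ p) P) :
    Integrable (fun s => G s 0 ^ (2 * a) * g2 (G s) 0 ^ b) P := by
  refine Integrable.mono' hM ((W.m0.pow_const _).mul
    (((g2_sf W.sf).meas 0).pow_const _)).aestronglyMeasurable (ae_of_all _ fun s => ?_)
  have n1 : 0 ≤ G s 0 ^ (2 * a) := by rw [pow_mul]; positivity
  have n2 := g2_nn (G s) 0
  rw [Real.norm_eq_abs, abs_of_nonneg (mul_nonneg n1 (pow_nonneg n2 _)), ← hab, pow_add]
  have M0 : 0 ≤ MM (G s) 0 := le_trans zero_le_one (MM_one _ _)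
  exact mul_le_mul (pw_le _ _ a) (pow_le_pow_left₀ n2 (g2_le _ _) b) (pow_nonneg n2 _)
    (pow_nonneg M0 _)

lemma xo_int {G : S → E d → ℝ} (W : Wave P τ G) (j k p : ℕ) (hjk : j + k + 2 = p)
    (hM : Integrable (fun s => MM (G s) 0 ^ p) P) :
    Integrable (fun s => G s 0 ^ (2 * j + 1) * g2 (G s) 0 ^ k *
      (Q (G s) 0 + G s 0 * g2 (G s) 0)) P := by
  have ms : Measurable fun s => G s 0 ^ (2 * j + 1) * g2 (G s) 0 ^ k *
      (Q (G s) 0 + G s 0 * g2 (G s) 0) :=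
    ((W.m0.pow_const _).mul (((g2_sf W.sf).meas 0).pow_const _)).mul
      (((Q_sf W.sf).meas 0).add (W.m0.mul ((g2_sf W.sf).meas 0)))
  refine Integrable.mono' (hM.const_mul 2) ms.aestronglyMeasurable (ae_of_all _ fun s => ?_)
  obtain ⟨f, hf⟩ : ∃ f, f = G s := ⟨_, rfl⟩
  rw [← hf]
  have n2 := g2_nn f 0
  have M1 := MM_one f 0
  have M0 : 0 ≤ MM f 0 := le_trans zero_le_one M1
  have gM := g2_le f 0
  have fM : f 0 ^ 2 ≤ MM f 0 := by have := pw_le f 0 1; simpa using this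
  have hM' : HS f 0 ≤ MM f 0 := by
    have g := g2_nn f 0; have t := TT_nn f 0; have := sq_nonneg (f 0)
    unfold MM; linarith
  have q : |f 0 * Q f 0| ≤ MM f 0 ^ 2 := by
    apply abs_le_of_sq_le_sq _ (by positivity)
    have q1 : Q f 0 ^ 2 ≤ g2 f 0 * (g2 f 0 * HS f 0) :=
      (Q_le f 0).trans (mul_le_mul_of_nonneg_left (R_le f 0) n2)
    have q2 : g2 f 0 * (g2 f 0 * HS f 0) ≤ MM f 0 * (MM f 0 * MM f 0) := by
      have := HS_nn f 0
      gcongr
    rw [mul_pow]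
    calc f 0 ^ 2 * Q f 0 ^ 2 ≤ MM f 0 * (MM f 0 * (MM f 0 * MM f 0)) :=
          mul_le_mul fM (q1.trans q2) (sq_nonneg _) M0
      _ = (MM f 0 ^ 2) ^ 2 := by ring
  have r : |f 0 * (f 0 * g2 f 0)| ≤ MM f 0 ^ 2 := by
    have e : f 0 * (f 0 * g2 f 0) = f 0 ^ 2 * g2 f 0 := by ring
    rw [e, abs_of_nonneg (by positivity), sq (MM f 0)]
    exact mul_le_mul fM gM n2 M0
  have e : f 0 ^ (2 * j + 1) * g2 f 0 ^ k * (Q f 0 + f 0 * g2 f 0) =
      f 0 ^ (2 * j) * g2 f 0 ^ k * (f 0 * Q f 0 + f 0 * (f 0 * g2 f 0)) := by ring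
  have n1 : 0 ≤ f 0 ^ (2 * j) := by rw [pow_mul]; positivity
  rw [e, Real.norm_eq_abs, abs_mul, abs_of_nonneg (mul_nonneg n1 (pow_nonneg n2 _))]
  have z : |f 0 * Q f 0 + f 0 * (f 0 * g2 f 0)| ≤ 2 * MM f 0 ^ 2 :=
    (abs_add_le _ _).trans (by linarith)
  calc f 0 ^ (2 * j) * g2 f 0 ^ k * |f 0 * Q f 0 + f 0 * (f 0 * g2 f 0)|
      ≤ MM f 0 ^ j * MM f 0 ^ k * (2 * MM f 0 ^ 2) := by
        have := pw_le f 0 j
        gcongr
    _ = 2 * MM f 0 ^ p := by rw [← hjk]; ring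

theorem xo_rec [IsProbabilityMeasure P] (hτ : ∀ x, MeasurePreserving (τ x) P P)
    {G : S → E d → ℝ} (W : Wave P τ G) (j k p : ℕ) (hjk : j + k + 2 = p)
    (hM : Integrable (fun s => MM (G s) 0 ^ p) P) :
    2 * j * xo P G (j - 1) (k + 1) ≤ (2 * k + 4) * xo P G j k := by
  obtain ⟨iy, ey⟩ := idY hτ W (pow_KB (k + 1)) j (by
    have : j + (k + 1) + 1 = p := by omega
    rw [this]; exact hM)
  have i2 := xo_int W j k p hjk hM
  have i1 : Integrable (fun s => 2 * j * (G s 0 ^ (2 * (j - 1) + 1) * g2 (G s) 0 ^ (k + 1) *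
      (Q (G s) 0 + G s 0 * g2 (G s) 0))) P := by
    rcases Nat.eq_zero_or_pos j with hj | hj
    · subst hj; simp
    · exact (xo_int W (j - 1) (k + 1) p (by omega) hM).const_mul _
  have pt : ∀ s, 2 * j * (G s 0 ^ (2 * (j - 1) + 1) * g2 (G s) 0 ^ (k + 1) *
      (Q (G s) 0 + G s 0 * g2 (G s) 0)) ≤
      (2 * j) * G s 0 ^ (2 * j - 1) * (fun x : ℝ => x ^ (k + 1)) (g2 (G s) 0) *
      (Q (G s) 0 + G s 0 * g2 (G s) 0) +
      G s 0 ^ (2 * j) * (2 * deriv (fun x : ℝ => x ^ (k + 1)) (g2 (G s) 0) *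
        (R (G s) 0 + G s 0 * Q (G s) 0) +
        (fun x : ℝ => x ^ (k + 1)) (g2 (G s) 0) * (HS (G s) 0 - G s 0 ^ 2)) +
      (2 * k + 4) * (G s 0 ^ (2 * j + 1) * g2 (G s) 0 ^ k *
        (Q (G s) 0 + G s 0 * g2 (G s) 0)) := by
    intro s
    obtain ⟨f, hf⟩ : ∃ f, f = G s := ⟨_, rfl⟩
    rw [← hf]
    have B := bracket (s := f 0) (g2_nn f 0) (R_nn f 0) (Q_le f 0) (R_le f 0) k
    have n1 : 0 ≤ f 0 ^ (2 * j) := by rw [pow_mul]; positivity
    have n2 : 0 ≤ g2 f 0 ^ k := pow_nonneg (g2_nn f 0) k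
    have C := mul_nonneg (mul_nonneg n1 n2) B
    have e1 : (2 * (j : ℝ)) * f 0 ^ (2 * j - 1) = 2 * j * f 0 ^ (2 * (j - 1) + 1) := by
      rcases Nat.eq_zero_or_pos j with hj | hj
      · subst hj; simp
      · congr 2; omega
    rw [deriv_pow_field]
    simp only [Nat.add_sub_cancel]
    rw [e1]
    push_cast
    obtain ⟨A, hA⟩ : ∃ A, A = f 0 ^ (2 * (j - 1) + 1) := ⟨_, rfl⟩
    rw [← hA, pow_succ (g2 f 0) k, pow_succ (f 0) (2 * j)]
    refine sub_nonneg.1 (le_trans C (le_of_eq ?_))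
    ring
  have h := integral_mono i1 ((iy.add (i2.const_mul (2 * (k : ℝ) + 4)))) pt
  rw [integral_add' iy (i2.const_mul _), ey, zero_add, integral_const_mul, integral_const_mul] at h
  exact h

theorem xo_nn [IsProbabilityMeasure P] (hτ : ∀ x, MeasurePreserving (τ x) P P)
    {G : S → E d → ℝ} (W : Wave P τ G) (p : ℕ)
    (hM : Integrable (fun s => MM (G s) 0 ^ p) P) :
    ∀ j k : ℕ, j + k + 2 = p → 0 ≤ xo P G j k := by
  intro j
  induction j with
  | zero =>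
    intro k h
    have := xo_rec hτ W 0 k p h hM
    simp only [Nat.cast_zero, mul_zero, zero_mul] at this
    have k0 : (0 : ℝ) < 2 * k + 4 := by positivity
    exact nonneg_of_mul_nonneg_right this k0
  | succ j ih =>
    intro k h
    have h1 := xo_rec hτ W (j + 1) k p h hM
    have h2 := ih (k + 1) (by omega)
    simp only [Nat.add_sub_cancel] at h1
    have k0 : (0 : ℝ) < 2 * k + 4 := by positivity
    have : (0 : ℝ) ≤ 2 * ((j + 1 : ℕ) : ℝ) * xo P G j (k + 1) := by positivity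
    exact nonneg_of_mul_nonneg_right (this.trans h1) k0

theorem mo_rec [IsProbabilityMeasure P] (hτ : ∀ x, MeasurePreserving (τ x) P P)
    {G : S → E d → ℝ} (W : Wave P τ G) (a b p : ℕ) (hab : a + b + 1 = p)
    (hM : Integrable (fun s => MM (G s) 0 ^ p) P) :
    (2 * a + 1) * mo P G a (b + 1) ≤ (2 * b + 1) * mo P G (a + 1) b := by
  obtain ⟨ix, ex⟩ := idX hτ W (pow_KB b) a (by rw [hab]; exact hM)
  have i1 := mo_int W a (b + 1) p (by omega) hM
  have i2 := mo_int W (a + 1) b p (by omega) hM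
  have hx : 0 ≤ (2 * (b : ℝ)) * xo P G a (b - 1) := by
    rcases Nat.eq_zero_or_pos b with hb | hb
    · subst hb; simp
    · exact mul_nonneg (by positivity) (xo_nn hτ W p hM a (b - 1) (by omega))
  have i3 : Integrable (fun s => 2 * b * (G s 0 ^ (2 * a + 1) * g2 (G s) 0 ^ (b - 1) *
      (Q (G s) 0 + G s 0 * g2 (G s) 0))) P := by
    rcases Nat.eq_zero_or_pos b with hb | hb
    · subst hb; simp
    · exact (xo_int W a (b - 1) p (by omega) hM).const_mul _
  have e : ∀ s, G s 0 ^ (2 * a) * ((2 * a + 1) * (fun x : ℝ => x ^ b) (g2 (G s) 0) * g2 (G s) 0 +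
      2 * G s 0 * deriv (fun x : ℝ => x ^ b) (g2 (G s) 0) * Q (G s) 0 -
      (fun x : ℝ => x ^ b) (g2 (G s) 0) * G s 0 ^ 2) =
      (2 * a + 1) * (G s 0 ^ (2 * a) * g2 (G s) 0 ^ (b + 1)) +
      2 * b * (G s 0 ^ (2 * a + 1) * g2 (G s) 0 ^ (b - 1) *
        (Q (G s) 0 + G s 0 * g2 (G s) 0)) -
      (2 * b + 1) * (G s 0 ^ (2 * (a + 1)) * g2 (G s) 0 ^ b) := by
    intro s
    rw [deriv_pow_field]
    rcases Nat.eq_zero_or_pos b with hb | hb
    · subst hb; simp; ring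
    · obtain ⟨c, rfl⟩ : ∃ c, b = c + 1 := ⟨b - 1, by omega⟩
      simp only [Nat.add_sub_cancel]
      push_cast
      ring
  simp only [e] at ex
  have ia := i1.const_mul (2 * (a : ℝ) + 1)
  have ib : Integrable (fun s => (2 * (a : ℝ) + 1) * (G s 0 ^ (2 * a) * g2 (G s) 0 ^ (b + 1)) +
      2 * b * (G s 0 ^ (2 * a + 1) * g2 (G s) 0 ^ (b - 1) *
        (Q (G s) 0 + G s 0 * g2 (G s) 0))) P := ia.add i3
  rw [integral_sub ib (i2.const_mul _), integral_add ia i3,
    integral_const_mul, integral_const_mul, integral_const_mul] at ex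
  have e1 : ∫ s, G s 0 ^ (2 * a) * g2 (G s) 0 ^ (b + 1) ∂P = mo P G a (b + 1) := rfl
  have e2 : ∫ s, G s 0 ^ (2 * (a + 1)) * g2 (G s) 0 ^ b ∂P = mo P G (a + 1) b := rfl
  have e3 : ∫ s, G s 0 ^ (2 * a + 1) * g2 (G s) 0 ^ (b - 1) *
        (Q (G s) 0 + G s 0 * g2 (G s) 0) ∂P = xo P G a (b - 1) := rfl
  rw [e1, e2, e3] at ex
  linarith

/-- the double factorial `(2 n - 1)!!` -/
def al : ℕ → ℝ
  | 0 => 1
  | n + 1 => (2 * n + 1) * al n

lemma al_pos : ∀ n, 0 < al n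
  | 0 => by simp [al]
  | n + 1 => by
    rw [al]; have := al_pos n; positivity

theorem mo_main [IsProbabilityMeasure P] (hτ : ∀ x, MeasurePreserving (τ x) P P)
    {G : S → E d → ℝ} (W : Wave P τ G) (p : ℕ)
    (hM : Integrable (fun s => MM (G s) 0 ^ p) P) :
    ∀ b a : ℕ, a + b = p → al p * mo P G a b ≤ al b * al a * mo P G p 0 := by
  intro b
  induction b with
  | zero =>
    intro a h
    have : a = p := by omega
    subst this
    simp [al]
  | succ b ih =>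
    intro a h
    have h1 := mo_rec hτ W a b p (by omega) hM
    have h2 := ih (a + 1) (by omega)
    have a0 : (0 : ℝ) < 2 * a + 1 := by positivity
    have pp := al_pos p
    refine le_of_mul_le_mul_left ?_ a0
    calc (2 * (a : ℝ) + 1) * (al p * mo P G a (b + 1)) =
          al p * ((2 * a + 1) * mo P G a (b + 1)) := by ring
      _ ≤ al p * ((2 * b + 1) * mo P G (a + 1) b) := by gcongr
      _ = (2 * b + 1) * (al p * mo P G (a + 1) b) := by ring
      _ ≤ (2 * b + 1) * (al b * al (a + 1) * mo P G p 0) := by gcongr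
      _ = (2 * a + 1) * (al (b + 1) * al a * mo P G p 0) := by
        simp only [al]; ring

/-- the sum of the coefficients -/
lemma al_sum (p : ℕ) : ∑ ij ∈ Finset.HasAntidiagonal.antidiagonal p, (p.choose ij.1 : ℝ) * (al ij.1 * al ij.2) =
    2 ^ p * p.factorial := by
  induction p with
  | zero => simp [al]
  | succ p ih =>
    rw [Finset.sum_antidiagonal_choose_succ_mul (fun i j => al i * al j) p]
    have e2 : ∑ ij ∈ Finset.HasAntidiagonal.antidiagonal p, (p.choose ij.2 : ℝ) * (al (ij.1 + 1) * al ij.2) =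
        ∑ ij ∈ Finset.HasAntidiagonal.antidiagonal p, (p.choose ij.1 : ℝ) * (al (ij.1 + 1) * al ij.2) := by
      refine Finset.sum_congr rfl fun ij h => ?_
      have := Finset.HasAntidiagonal.mem_antidiagonal.1 h
      rw [← Nat.choose_symm_of_eq_add this.symm]
    rw [e2, ← Finset.sum_add_distrib]
    have e3 : ∀ ij ∈ Finset.HasAntidiagonal.antidiagonal p, (p.choose ij.1 : ℝ) * (al ij.1 * al (ij.2 + 1)) +
        (p.choose ij.1 : ℝ) * (al (ij.1 + 1) * al ij.2) =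
        (2 * (p + 1)) * ((p.choose ij.1 : ℝ) * (al ij.1 * al ij.2)) := by
      intro ij h
      have h1 := Finset.HasAntidiagonal.mem_antidiagonal.1 h
      have h2 : (ij.1 : ℝ) + ij.2 = p := by exact_mod_cast h1
      simp only [al]
      rw [← h2]; ring
    rw [Finset.sum_congr rfl e3, ← Finset.mul_sum, ih, Nat.factorial_succ]
    push_cast
    ring

/-- the moment of `F² + |∇F|²` -/
theorem pmom [IsProbabilityMeasure P] (hτ : ∀ x, MeasurePreserving (τ x) P P)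
    {G : S → E d → ℝ} (W : Wave P τ G) (p : ℕ)
    (hM : Integrable (fun s => MM (G s) 0 ^ p) P) :
    Integrable (fun s => (G s 0 ^ 2 + g2 (G s) 0) ^ p) P ∧
    al p * ∫ s, (G s 0 ^ 2 + g2 (G s) 0) ^ p ∂P ≤ 2 ^ p * p.factorial * mo P G p 0 := by
  have e : ∀ s, (G s 0 ^ 2 + g2 (G s) 0) ^ p = ∑ ij ∈ Finset.HasAntidiagonal.antidiagonal p,
      (p.choose ij.1 : ℝ) * (G s 0 ^ (2 * ij.1) * g2 (G s) 0 ^ ij.2) := by
    intro s
    rw [(Commute.all _ _).add_pow']
    refine Finset.sum_congr rfl fun ij _ => ?_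
    rw [nsmul_eq_mul, pow_mul]
  have ii : ∀ ij ∈ Finset.HasAntidiagonal.antidiagonal p, Integrable (fun s =>
      (p.choose ij.1 : ℝ) * (G s 0 ^ (2 * ij.1) * g2 (G s) 0 ^ ij.2)) P := fun ij h =>
    (mo_int W ij.1 ij.2 p (Finset.HasAntidiagonal.mem_antidiagonal.1 h) hM).const_mul _
  simp only [e]
  refine ⟨integrable_finsetSum _ ii, ?_⟩
  rw [integral_finsetSum _ ii, ← al_sum, Finset.mul_sum, Finset.sum_mul]
  refine Finset.sum_le_sum fun ij h => ?_
  rw [integral_const_mul]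
  have h1 := mo_main hτ W p hM ij.2 ij.1 (Finset.HasAntidiagonal.mem_antidiagonal.1 h)
  have e1 : ∫ s, G s 0 ^ (2 * ij.1) * g2 (G s) 0 ^ ij.2 ∂P = mo P G ij.1 ij.2 := rfl
  rw [e1]
  have c0 : (0 : ℝ) ≤ (p.choose ij.1 : ℝ) := Nat.cast_nonneg _
  calc al p * ((p.choose ij.1 : ℝ) * mo P G ij.1 ij.2) =
        (p.choose ij.1 : ℝ) * (al p * mo P G ij.1 ij.2) := by ring
    _ ≤ (p.choose ij.1 : ℝ) * (al ij.2 * al ij.1 * mo P G p 0) := by gcongr
    _ = (p.choose ij.1 : ℝ) * (al ij.1 * al ij.2) * mo P G p 0 := by ring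

end

end Pool.Agent.Q73.SM
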